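import Pool.Agent.NUSea.H0.ShlC
import Pool.Agent.NUS4C.PhLog

/-!
# The cutoff of the pairs on the curve with the far factor

`exists_cfF`: for `m ≥ m0` and every end `T1` of the window: the cutoff `‖phP M β (pA η t)‖` times the far
factor `hfar Cc T1 x t` has a `C¹` majorant `e^B`, `0 ≤ B ≤ C`, of bounded energy, and decays.
-/

set_option autoImplicit false
set_option linter.unusedSectionVars false

open MeasureTheory Set Filter Topology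
open scoped Real ENNReal

namespace NUSea.H0

open NUH0 NU42
open NUMF NUWC NUKer NUDi NUMFC NUR2

noncomputable section

/-- the cutoff of the pairs on the curve -/
def cfP (M : ℕ) (β : ℝ) (η : ℝ → ℝ) (t : ℝ) : ℝ := ‖NUGC.phP M β (NUO.pA η t)‖

theorem cfP_nonneg (M : ℕ) (β : ℝ) (η : ℝ → ℝ) (t : ℝ) : 0 ≤ cfP M β η t := norm_nonneg _

theorem pA_re (η : ℝ → ℝ) (t : ℝ) : (NUO.pA η t).re = NUP1.l - η t := by
  unfold NUO.pA NUP1.vl
  simp

theorem pA_im (η : ℝ → ℝ) (t : ℝ) : (NUO.pA η t).im = t := by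
  unfold NUO.pA NUP1.vl
  simp

theorem cfP_meas (M : ℕ) (β : ℝ) {η : ℝ → ℝ} (hη : Continuous η) : Measurable (cfP M β η) := by
  have h1 : Measurable (NUO.pA η) := by
    unfold NUO.pA NUP1.vl
    fun_prop
  have h2 : Measurable (NUGC.phP M β) := by
    unfold NUGC.phP NUGC.PsiP NUP1.psi
    fun_prop
  exact (h2.comp h1).norm

/-- the curve lies in the strip of the cutoff -/
theorem pA_strip {ep : ℝ} (h0 : 0 < ep) {η : ℝ → ℝ} {t : ℝ} (h1 : -(3 / 4 * NUP1.l * ep) ≤ η t)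
    (h2 : η t ≤ NUP1.l) : |(NUO.pA η t).re + NUP1.l / 2| ≤ sEC ep := by
  have hl := NUP1.l_pos
  rw [pA_re]
  unfold sEC
  rw [abs_le]
  constructor <;> nlinarith

theorem phP_eq (M : ℕ) (β : ℝ) (u : ℂ) : NUGC.phP M β u = 1 - NURow.Psi β u ^ M := by
  unfold NUGC.phP
  rw [NUS4C.PsiP_eq]

variable [Sea]

/-- **the cutoff on the curve**, near groups -/
theorem exists_cfP {ep : ℝ} (h0 : 0 < ep) (h1 : ep ≤ 1 / 100) : ∃ C : ℝ, 1 ≤ C ∧ ∀ M : ℕ, 1 ≤ M →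
    ∃ B B' : ℝ → ℝ, ContDiff ℝ 4 B ∧ (∀ t, HasDerivAt B (B' t) t) ∧ (∀ t, 0 ≤ B t) ∧ (∀ t, B t ≤ 1) ∧
      (∀ j ≤ 4, ∀ t, |iteratedDeriv j B t| ≤ C) ∧
      (∀ t, Real.log M / (8 / 3 * (1 - ep)) + C ≤ |t| → B t = 0) ∧
      Integrable (fun t => M * P t * B t) ∧ (∫ t, M * P t * B t) ≤ C ∧
      Integrable (fun t => B t ^ 2 + B' t ^ 2) ∧ (∫ t, B t ^ 2 + B' t ^ 2) ≤ C ∧
      ∀ η : ℝ → ℝ, (∀ t, -(3 / 4 * NUP1.l * ep) ≤ η t) → (∀ t, η t ≤ NUP1.l) → ∀ t,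
        cfP M (4 / 3 * (1 - ep)) η t ≤ Real.exp (B t) ∧
        cfP M (4 / 3 * (1 - ep)) η t ≤ C * M * Real.exp (-(8 / 3 * (1 - ep)) * |t|) ∧
        cfP M (4 / 3 * (1 - ep)) η t ≤ 2 := by
  obtain ⟨C, hC1, hC⟩ := exists_cutC h0 h1
  refine ⟨C, hC1, fun M hM => ?_⟩
  obtain ⟨B, B', g1, g2, g3, g4, g5, g6, g7, g8, g9, g10, g11⟩ := hC M hM
  refine ⟨B, B', g1, g2, g3, g4, g5, g6, g7, g8, g9, g10, fun η hη hη' t => ?_⟩
  have h2 := g11 (NUO.pA η t) (pA_strip h0 (hη t) (hη' t))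
  rw [pA_im, ← phP_eq] at h2
  exact h2

/-- **the cutoff on the curve with the far factor** -/
theorem exists_cfF {ep Cc : ℝ} (h0 : 0 < ep) (h1 : ep ≤ 1 / 100) (hCc : 1 ≤ Cc) :
    ∃ C : ℝ, 1 ≤ C ∧ ∃ m0 : ℝ, 1 ≤ m0 ∧ ∀ (m T1 : ℝ) (M : ℕ), m0 ≤ m → 1 ≤ M → (M : ℝ) ≤ m →
    (1 + 2 * ep) * (3 / 8 * Real.log m) ≤ T1 →
    ∃ B B' : ℝ → ℝ, ContDiff ℝ 4 B ∧ (∀ t, HasDerivAt B (B' t) t) ∧ Continuous B' ∧ (∀ t, 0 ≤ B t) ∧
      (∀ t, B t ≤ C) ∧ (∀ t, |t| < T1 - 1 → B t ≤ 1) ∧ (∀ t, |B' t| ≤ C) ∧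
      Integrable (fun t => M * P t * B t) ∧ (∫ t, M * P t * B t) ≤ C ∧
      Integrable (fun t => B t ^ 2 + B' t ^ 2) ∧ (∫ t, B t ^ 2 + B' t ^ 2) ≤ C ∧
      ∀ η : ℝ → ℝ, Continuous η → (∀ t, -(3 / 4 * NUP1.l * ep) ≤ η t) → (∀ t, η t ≤ NUP1.l) →
        ∀ x : ℝ, 0 ≤ x →
        Measurable (fun t => cfP M (4 / 3 * (1 - ep)) η t * hfar Cc T1 x t) ∧ ∀ t,
        0 ≤ cfP M (4 / 3 * (1 - ep)) η t * hfar Cc T1 x t ∧
        cfP M (4 / 3 * (1 - ep)) η t * hfar Cc T1 x t ≤ Real.exp (B t) ∧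
        cfP M (4 / 3 * (1 - ep)) η t * hfar Cc T1 x t ≤
          (2 + Cc) * Real.exp (37 / 20 * x) * Real.exp (49 / 20 * T1) *
            Real.exp (-(49 / 20) * |t|) := by
  obtain ⟨C1, hC1, hN⟩ := exists_cfP h0 h1
  obtain ⟨C2, hC2, hF⟩ := exists_far hCc
  obtain ⟨m0, hm0, hnum⟩ := far_num (ep := ep) (C := C1) h0 h1
  refine ⟨2 * C1 + 2 * C2 + 1, by linarith, max m0 (Real.exp 3), hm0.trans (le_max_left _ _), ?_⟩
  intro m T1 M hm hM hMm hT1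
  have hmm := (le_max_left m0 (Real.exp 3)).trans hm
  have hL : 3 ≤ Real.log m := by
    have h2 := (le_max_right m0 (Real.exp 3)).trans hm
    rw [Real.le_log_iff_exp_le (by linarith)]
    exact h2
  have hT : 1 ≤ T1 := by nlinarith
  obtain ⟨n1, n2⟩ := hnum m M T1 hmm (Nat.cast_nonneg _) hMm hT1 (by linarith)
  obtain ⟨B, B', g1, g2, g3, g4, g5, g6, g7, g8, g9, g10, g11⟩ := hN M hM
  obtain ⟨b, b', k1, k2, k3, k4, k5, k6, k7, k8, k9, k10⟩ := hF T1 hT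
  obtain ⟨k91, k92⟩ := k9 M (Nat.cast_nonneg _) n2
  have hB' : B' = deriv B := funext fun t => (g2 t).deriv.symm
  have hb' : b' = deriv b := funext fun t => (k2 t).deriv.symm
  have hBc' : Continuous B' := by
    rw [hB']
    exact g1.continuous_deriv (by norm_num)
  have hbc' : Continuous b' := by
    rw [hb']
    exact k1.continuous_deriv (by norm_num)
  have hB1 : ∀ t, |B' t| ≤ C1 := fun t => by
    have h2 := g5 1 (by norm_num) t
    rw [iteratedDeriv_one, ← hB'] at h2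
    exact h2
  have hsq : ∀ t, (B t + b t) ^ 2 + (B' t + b' t) ^ 2 ≤
      2 * (B t ^ 2 + B' t ^ 2) + 2 * (b t ^ 2 + b' t ^ 2) := fun t => by
    nlinarith [sq_nonneg (B t - b t), sq_nonneg (B' t - b' t)]
  have hI : Integrable fun t => 2 * (B t ^ 2 + B' t ^ 2) + 2 * (b t ^ 2 + b' t ^ 2) :=
    (g9.const_mul 2).add (k7.const_mul 2)
  have hcont : Continuous fun t => (B t + b t) ^ 2 + (B' t + b' t) ^ 2 :=
    ((g1.continuous.add k1.continuous).pow 2).add ((hBc'.add hbc').pow 2)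
  have hI2 : Integrable fun t => (B t + b t) ^ 2 + (B' t + b' t) ^ 2 := by
    refine hI.mono' hcont.aestronglyMeasurable (ae_of_all _ fun t => ?_)
    rw [Real.norm_eq_abs, abs_of_nonneg (by positivity)]
    exact hsq t
  have hMP : (fun t => (M : ℝ) * P t * (B t + b t)) =
      fun t => (M : ℝ) * P t * B t + M * P t * b t := funext fun t => by ring
  refine ⟨fun t => B t + b t, fun t => B' t + b' t, g1.add k1, fun t => (g2 t).add (k2 t),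
    hBc'.add hbc', fun t => add_nonneg (g3 t) (k3 t), ?_, ?_, ?_, ?_, ?_, hI2, ?_, ?_⟩
  · intro t
    have e1 := g4 t
    have e2 := k4 t
    show B t + b t ≤ _
    linarith
  · intro t ht
    have e1 := g4 t
    have e2 := k6 t ht
    show B t + b t ≤ 1
    linarith
  · intro t
    have e1 := hB1 t
    have e2 := k5 t
    refine (abs_add_le _ _).trans ?_
    linarith
  · rw [hMP]
    exact g7.add k91
  · rw [hMP, integral_add g7 k91]
    linarith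
  · calc ∫ t, (B t + b t) ^ 2 + (B' t + b' t) ^ 2 ≤
          ∫ t, (2 * (B t ^ 2 + B' t ^ 2) + 2 * (b t ^ 2 + b' t ^ 2)) := integral_mono hI2 hI hsq
      _ = 2 * (∫ t, B t ^ 2 + B' t ^ 2) + 2 * ∫ t, b t ^ 2 + b' t ^ 2 := by
          rw [integral_add (g9.const_mul 2) (k7.const_mul 2), integral_const_mul, integral_const_mul]
      _ ≤ _ := by linarith
  · intro η hηc hη hη' x hx
    have hcf := g11 η hη hη'
    refine ⟨(cfP_meas M _ hηc).mul (hfar_meas Cc T1 x), fun t => ?_⟩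
    obtain ⟨e1, e2⟩ := k10 (cf := cfP M (4 / 3 * (1 - ep)) η) (B := B) (a := 8 / 3 * (1 - ep))
      (D := C1 * M) (x := x) (by linarith) hx (fun t => cfP_nonneg _ _ _ t) g3
      (fun t => (hcf t).1) (fun t => (hcf t).2.2) (fun t => (hcf t).2.1) n1 t
    exact ⟨mul_nonneg (cfP_nonneg _ _ _ t) (hfar_nonneg (by linarith) t), e1, e2⟩

end

end NUSea.H0
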