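import Pool.Agent.NUSea.H0.En
import Pool.Agent.NUSea.PhiQ3
import Pool.Agent.NUH0.DatO

/-!
# The data of a configuration of objects and of spectators, for a general sea

As `NUH0/DatO`, for a general `[Sea]`, with one more density `τD` (splitting of the spectators).  The
extra analytic potentials `A` may grow linearly (charged spectators): only
`wO a = Re A(ζ) + B - sg a (log g * τD) - V * ν` has to be bounded.
-/

set_option autoImplicit false
set_option linter.unusedSectionVars false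

open MeasureTheory Set Filter Topology

namespace NUSea.H0

open NUMF NUO NUKer NUAct NUDispP NUDispV NUDispW
open NU42 (norm_iD Crv iD_cont)
open NUH0 (slO slO_bc linC_base sum_kq)

noncomputable section

variable [Sea]

/-- extra data -/
structure Inp where
  /-- row number -/
  s : ℝ
  /-- displacement -/
  η : ℝ → ℝ
  /-- its derivative -/
  η1 : ℝ → ℝ
  /-- extra analytic potentials -/
  A : Bool → ℂ → ℂ
  /-- extra real potentials -/
  B : Bool → ℝ → ℝ
  /-- extra densities -/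
  ν : Bool → ℝ → ℝ
  /-- extra density of the splitting -/
  τD : ℝ → ℝ

/-- all analytic potentials -/
def FA (I : Inp) (P : Par) {r : ℕ} (O : Fin r → Xo) (a : Bool) (z : ℂ) : ℂ := FO P O a z + I.A a z

/-- the quadratic part of the one body potential -/
def Qr (I : Inp) (P : Par) {r : ℕ} (O : Fin r → Xo) (a : Bool) (t : ℝ) : ℝ :=
  (∑ d, (NUSea.gas I.s (fun _ => I.η) (fun _ => I.η1) (FA I P O)).KB a d t).re

/-- potential of the extra density -/
def Vn (I : Inp) (a : Bool) (t : ℝ) : ℝ := ∫ u, I.ν a u * V (t - u)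

/-- the part of the remainder which comes from the extra data -/
def wO (I : Inp) (a : Bool) (t : ℝ) : ℝ :=
  (I.A a (NUAct.zt (iD I.η) t)).re + I.B a t - Dat.sg a * NUC43.lgp I.τD t - Vn I a t

/-- the remainder -/
def phiO (I : Inp) (P : Par) {r : ℕ} (O : Fin r → Xo) (a : Bool) (t : ℝ) : ℝ :=
  Qr I P O a t + dFB P O I.η a t + wO I a t

/-- **the data of a configuration** -/
def datO (I : Inp) (P : Par) {r : ℕ} (O : Fin r → Xo) : Dat where
  s := I.s
  ζ _ := NUAct.zt (iD I.η)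
  ζ' _ := NUAct.zd (iD I.η1)
  F := FA I P O
  E a t := slO O a t + I.B a t
  τ t := NUC43.tauC P.jL P.e O t + I.τD t
  μ a t := NUC43.muC P.jL P.e O a t + I.ν a t
  φ := phiO I P O
  φ' a := deriv (phiO I P O a)

variable {r : ℕ} (I : Inp) (P : Par) (O : Fin r → Xo)

lemma datO_gas : (datO I P O).gas = NUSea.gas I.s (fun _ => I.η) (fun _ => I.η1) (FA I P O) := rfl

lemma datO_D (a : Bool) : (datO I P O).D a = iD I.η := by
  funext t
  unfold Dat.D
  show NUAct.zt (iD I.η) t - t = iD I.η t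
  unfold NUAct.zt
  ring

lemma datO_D1 (a : Bool) : (datO I P O).D1 a = iD I.η1 := by
  funext t
  unfold Dat.D1
  show NUAct.zd (iD I.η1) t - 1 = iD I.η1 t
  unfold NUAct.zd
  ring

/-- the potentials on the path -/
lemma FO_re {δ : ℝ} (hP : PG δ P) (a : Bool) {t : ℝ} (ht : |I.η t| < δ * NUMF.l) :
    (FO P O a (zt (iD I.η) t)).re = dFB P O I.η a t + ∑ i, PT a (cbase P (O i)) 0 t :=
  NUH0.FO_re ⟨0, I.η, I.η1, fun _ _ => 0, fun _ _ => 0, fun _ _ => 0⟩ P O hP a ht

/-! ### hypotheses -/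

/-- hypotheses of the instance -/
structure IOk (dl ε M b : ℝ) (e : ℝ → ℝ) (I : Inp) (P : Par) (r : ℕ) : Prop where
  s0 : 0 ≤ I.s
  b0 : 0 ≤ b
  cur : Cur I.s ε M b e I.η
  der : ∀ t, HasDerivAt I.η (I.η1 t) t
  ε1 : ε ≤ 1 / 40
  pg : PG (1 / 8) P
  d1 : ∀ t, P.d r + P.rad r t / NUMF.l + ε / NUMF.l ≤ dl
  d2 : dl ≤ 1 / 16
  Ae : ∀ a, Ext (NUMF.l / 10) (I.A a)
  Bc : ∀ a, Continuous (I.B a)
  Bb : ∀ a, ∃ C, ∀ t, |I.B a t| ≤ C
  νc : ∀ a, Continuous (I.ν a)
  νi : ∀ a, Integrable (I.ν a)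
  νb : ∀ a, ∃ C, ∀ t, |I.ν a t| ≤ C
  τi : Integrable I.τD
  τ1 : Integrable fun x => I.τD x * x
  wc : ∀ a, ContDiff ℝ 1 (wO I a)
  wb : ∀ a, ∃ C, ∀ t, |wO I a t| ≤ C

variable {I P O} {dl ε M b : ℝ} {e : ℝ → ℝ}

namespace IOk

variable (h : IOk dl ε M b e I P r)

include h

lemma εl : ε < NUMF.l / 10 := by
  refine h.ε1.trans_lt ?_
  unfold NUMF.l
  have := Real.pi_gt_d2
  linarith

lemma eta (t : ℝ) : |I.η t| ≤ ε := (norm_iD I.η t).symm.le.trans ((h.cur.oc.le t).trans (h.cur.le t))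

lemma eta1 (t : ℝ) : |I.η1 t| ≤ ε :=
  (norm_iD I.η1 t).symm.le.trans (((h.cur.oc1 h.der).le t).trans (h.cur.le t))

lemma eta1_cont : Continuous I.η1 := by
  have h1 := Complex.continuous_im.comp (h.cur.oc1 h.der).cont
  refine h1.congr fun t => ?_
  simp [iD]

lemma crv : Crv ε b I.η I.η1 where
  hd := h.der
  hc := h.eta1_cont
  h0 := h.eta
  h1 := h.eta1
  hz t ht := by
    have h1 := (norm_iD I.η t).symm.le.trans (h.cur.oc.le t)
    rw [h.cur.supp t ht] at h1
    exact abs_nonpos_iff.1 h1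

lemma ext (a : Bool) : Ext (NUMF.l / 10) (FA I P O a) := by
  have hl := NUMF.l_pos
  have h1 := ext_FO (P := P) O (b := NUMF.l / 9) (by positivity) (by linarith) h.pg a
    (b' := NUMF.l / 10) (by linarith)
  obtain ⟨A1, hA1⟩ := h1.bd
  obtain ⟨A2, hA2⟩ := (h.Ae a).bd
  refine ⟨fun z hz => (h1.diff z hz).add ((h.Ae a).diff z hz), A1 + A2, fun z hz => ?_⟩
  rw [add_mul]
  exact (norm_add_le _ _).trans (add_le_add (hA1 z hz) (hA2 z hz))

lemma path : Path (NUMF.l / 10) (1 / 2) 2 (NUAct.zt (iD I.η)) (NUAct.zd (iD I.η1)) :=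
  path_of_cur_w h.s0 (h.ε1.trans (by norm_num)) h.εl.le h.cur h.der

lemma eta_lt (t : ℝ) : |I.η t| < 1 / 8 * NUMF.l := by
  have hl := NUMF.l_pos
  have := h.eta t
  have := h.εl
  linarith

/-- the equation -/
lemma lin_eq (a : Bool) (t : ℝ) : (datO I P O).gas.lin a t - Dat.sg a * (datO I P O).Gt t +
    (datO I P O).E a t = (datO I P O).Vm a t + (datO I P O).φ a t := by
  have hj : NUC43.Adm P.jL P.e := by
    have h1 := h.pg.j1
    have h2 := h.pg.j2
    have h3 := h.pg.e1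
    have h4 := h.pg.e2 0
    have h5 := h.pg.d0 0
    exact ⟨by linarith, by linarith, by linarith, by linarith⟩
  have h1 := NUC43.cfg_eq hj O a t
  rw [linC_base] at h1
  have h2 := FO_re I P O h.pg a (h.eta_lt t)
  have e1 : (datO I P O).gas.lin a t = Qr I P O a t + (FA I P O a (NUAct.zt (iD I.η) t)).re := by
    rw [Gas.lin, Complex.add_re]
    rfl
  have e2 : (datO I P O).Gt t = NUC43.lgp (NUC43.tauC P.jL P.e O) t + NUC43.lgp I.τD t := by
    have i1 := NUC43.lg_in (NUC43.dn_tauC hj O) t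
    have i2 := tau_logg_int h.τi h.τ1 t
    unfold Dat.Gt NUC43.lgp
    rw [← integral_add i1 i2]
    refine integral_congr_ae (ae_of_all _ fun u => ?_)
    show (NUC43.tauC P.jL P.e O u + I.τD u) * Real.log (g (t - u)) = _
    ring
  have e3 : (datO I P O).E a t = slO O a t + I.B a t := rfl
  have e4 : Dat.sg a = NUC43.sg a := rfl
  have e5 : (datO I P O).Vm a t = (∫ u, NUC43.muC P.jL P.e O a u * V (t - u)) + Vn I a t := by
    obtain ⟨C, hC⟩ := h.νb a
    have i1 := NUC43.V_in (NUC43.dn_muC hj O a) t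
    have i2 : Integrable fun u => I.ν a u * V (t - u) := by
      have h1 : Integrable fun u => V (t - u) := V_integral.1.comp_sub_left t
      exact (h1.mul_bdd (c := C) (h.νc a).aestronglyMeasurable (ae_of_all _ hC)).congr
        (ae_of_all _ fun u => mul_comm _ _)
    unfold Dat.Vm Vn
    rw [← integral_add i1 i2]
    refine integral_congr_ae (ae_of_all _ fun u => ?_)
    show (NUC43.muC P.jL P.e O a u + I.ν a u) * V (t - u) = _
    ring
  have e6 : (datO I P O).φ a t = Qr I P O a t + dFB P O I.η a t + ((I.A a (NUAct.zt (iD I.η) t)).re +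
      I.B a t - Dat.sg a * NUC43.lgp I.τD t - Vn I a t) := rfl
  rw [e1, e2, e3, e4, e5, e6, FA, Complex.add_re, h2, e4]
  linarith

/-- **the equation of the data** -/
theorem fld {p n : ℕ} (hpn : (p : ℝ) - n =
    -(∑ i, NUC43.sg (sp (O i)) * NUC43.kq (kd (O i))) + ∫ x, I.τD x) :
    Fld (datO I P O) p n := by
  have hj : NUC43.Adm P.jL P.e := by
    have h1 := h.pg.j1
    have h2 := h.pg.j2
    have h3 := h.pg.e1
    have h4 := h.pg.e2 0
    have h5 := h.pg.d0 0
    exact ⟨by linarith, by linarith, by linarith, by linarith⟩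
  have hd := NUC43.dn_tauC hj O
  refine ⟨hd.int.add h.τi, ?_, ?_, h.lin_eq⟩
  · have h1 := hd.wint
    have h2 : Integrable fun x => |x| * NUC43.tauC P.jL P.e O x := by
      refine (h1.sub hd.int).congr (ae_of_all _ fun x => ?_)
      simp only [Pi.sub_apply]
      ring
    have hc := hd.cont
    have h3 : Integrable fun x => NUC43.tauC P.jL P.e O x * x := by
      refine h2.mono (Continuous.aestronglyMeasurable (hc.mul continuous_id)) (ae_of_all _ fun x => ?_)
      rw [norm_mul, norm_mul, Real.norm_eq_abs |x|, abs_abs, Real.norm_eq_abs x, mul_comm]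
    refine (h3.add h.τ1).congr (ae_of_all _ fun x => ?_)
    show NUC43.tauC P.jL P.e O x * x + I.τD x * x = (NUC43.tauC P.jL P.e O x + I.τD x) * x
    ring
  · have h4 : ∫ x, (datO I P O).τ x = (∫ x, NUC43.tauC P.jL P.e O x) + ∫ x, I.τD x :=
      integral_add hd.int h.τi
    rw [h4, hpn, NUC43.tauC_int hj O]

lemma offj : Off (1 / 16 + dl) P.jL := by
  intro n
  have h0 := h.d2
  have h1 := h.pg.j1
  have h2 := h.pg.j2
  rcases le_or_gt n 2 with hn | hn
  · have h3 : (n : ℝ) ≤ 2 := by exact_mod_cast hn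
    rw [abs_of_nonneg (by linarith)]
    linarith
  · have h3 : (3 : ℝ) ≤ n := by exact_mod_cast hn
    rw [abs_of_nonpos (by linarith)]
    linarith

lemma offe : Off (1 / 16 + dl) P.e := by
  intro n
  have h0 := h.d2
  have h1 := h.pg.e1
  have h2 := h.pg.e2 0
  have h4 := h.pg.d0 0
  rcases le_or_gt n 0 with hn | hn
  · have h3 : (n : ℝ) ≤ 0 := by exact_mod_cast hn
    rw [abs_of_nonneg (by linarith)]
    linarith
  · have h3 : (1 : ℝ) ≤ n := by exact_mod_cast hn
    rw [abs_of_nonpos (by linarith)]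
    linarith

lemma rr1 (i : Fin r) : 0 ≤ rr P O i ∧ rr P O i ≤ 1 := by
  have h0 := h.pg.r0 r (ht (O i))
  have h1 := h.pg.r1 r (ht (O i))
  have h2 : NUMF.l < 1 := by
    unfold NUMF.l
    have := Real.pi_lt_four
    linarith
  unfold rr
  constructor <;> linarith

/-- **the displacement fields of the objects**: `C^1`, with decaying derivative -/
theorem exists_dFB (a : Bool) : ∃ F' : ℝ → ℝ, (∀ t, HasDerivAt (dFB P O I.η a) (F' t) t) ∧
    Continuous F' ∧
    (∀ t, |dFB P O I.η a t| ≤ NUDispV.Bd (1 / 16) dl * bmaj Finset.univ (fun i => ht (O i)) 2 t +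
      Ad (1 / 16) P O) ∧
    ∀ t, |F' t| ≤ 2 * NUDispV.Bd (1 / 16) dl * bmaj Finset.univ (fun i => ht (O i)) 2 t := by
  have key := parts_fields (δ0 := 1 / 16) (ε := dl) (ε1 := ε) P O (by norm_num)
    (by linarith [h.d2]) h.eta h.eta1 h.der h.eta1_cont (h.pg.d0 r) (fun i => (h.rr1 i).1)
    (fun i => (h.rr1 i).2) (fun i => h.d1 (ht (O i))) h.offj h.offe a
  have kle := dFB_le (δ0 := 1 / 16) (ε := dl) (ε1 := ε) P O (by norm_num)
    (by linarith [h.d2]) h.eta h.eta1 h.der h.eta1_cont (h.pg.d0 r) (fun i => (h.rr1 i).1)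
    (fun i => (h.rr1 i).2) (fun i => h.d1 (ht (O i))) h.offj h.offe a
  choose f' hf' using fun i => (key i).1
  choose g' hg' using fun i => (key i).2
  refine ⟨fun t => ∑ i, (f' i t + g' i t), fun t => ?_, ?_, kle, fun t => ?_⟩
  · have e1 : dFB P O I.η a = fun t => ∑ i, ((Real.log (potN P O i a (NUP1.vl (NUP1.l - I.η t) t)) -
        PT a (cref P O i) 0 t) + (PT a (cref P O i) 0 t - PT a (cbase P (O i)) 0 t)) := by
      funext t
      unfold dFB
      exact Finset.sum_congr rfl fun i _ => by ring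
    rw [e1]
    exact HasDerivAt.fun_sum fun i _ => ((hf' i).deriv t).add ((hg' i).deriv t)
  · exact continuous_finsetSum _ fun i _ => (hf' i).cont.add (hg' i).cont
  · rw [mul_assoc, bmaj, Finset.mul_sum, Finset.mul_sum]
    refine (Finset.abs_sum_le_sum_abs _ _).trans (Finset.sum_le_sum fun i _ => ?_)
    have e1 : Real.exp (-(2 * |t - ht (O i)|)) = Real.exp (-2 * |t - ht (O i)|) := by ring_nf
    have h1 := (hf' i).le' t
    have h2 := (hg' i).le' t
    have h3 := abs_add_le (f' i t) (g' i t)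
    rw [← e1] at h1 h2
    linarith

end IOk

namespace IOk

variable (h : IOk dl ε M b e I P r)

include h

/-- **the remainder is `C^1` and bounded** -/
theorem phi_C1 (hQ : ∀ a, ContDiff ℝ 1 (Qr I P O a)) (a : Bool) : ContDiff ℝ 1 (phiO I P O a) := by
  obtain ⟨F', h1, h2, h3, h4⟩ := h.exists_dFB (O := O) a
  have h5 : ContDiff ℝ 1 (dFB P O I.η a) := by
    rw [contDiff_one_iff_deriv]
    refine ⟨fun t => (h1 t).differentiableAt, ?_⟩
    rw [show deriv (dFB P O I.η a) = F' from funext fun t => (h1 t).deriv]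
    exact h2
  exact ((hQ a).add h5).add (h.wc a)

theorem phi_bdd (a : Bool) : ∃ C, ∀ t, |phiO I P O a t| ≤ C := by
  obtain ⟨K, hK, HQ⟩ := exists_phiQ'
  obtain ⟨Q', q1, q2, q3⟩ := HQ h.s0 h.b0 (h.ε1.trans (by norm_num)) h.cur h.der (FA I P O)
  obtain ⟨F', h1, h2, h3, h4⟩ := h.exists_dFB (O := O) a
  obtain ⟨C1, hC1⟩ := h.wb a
  have hM := h.cur.M0 h.s0
  have hε := h.cur.ε0
  have hdl : 0 ≤ NUDispV.Bd (1 / 16) dl := by
    have h5 := h.d1 0
    have h6 := h.pg.d0 r
    have h7 := h.pg.r0 r 0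
    have hl := NUMF.l_pos
    have : 0 ≤ dl := by
      have : 0 ≤ P.rad r 0 / NUMF.l := by positivity
      have : 0 ≤ ε / NUMF.l := by positivity
      linarith
    unfold NUDispV.Bd
    have h8 : 0 < Real.sin (1 / 16 * NUMF.l) := by
      refine Real.sin_pos_of_pos_of_lt_pi (by positivity) ?_
      unfold NUMF.l
      linarith [Real.pi_pos]
    positivity
  refine ⟨K * (M * ε) * Wm + (NUDispV.Bd (1 / 16) dl * r + Ad (1 / 16) P O) + C1,
    fun t => ?_⟩
  have b1 : |Qr I P O a t| ≤ K * (M * ε) * Wm :=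
    (q2 a t).trans (mul_le_mul_of_nonneg_left (Wb_le b t) (by positivity))
  have b2 : bmaj Finset.univ (fun i => ht (O i)) 2 t ≤ r := by
    unfold bmaj
    refine (Finset.sum_le_card_nsmul _ _ 1 fun i _ => ?_).trans (by simp)
    rw [Real.exp_le_one_iff]
    have := abs_nonneg (t - ht (O i))
    linarith
  have b3 := h3 t
  have b4 : |dFB P O I.η a t| ≤ NUDispV.Bd (1 / 16) dl * r + Ad (1 / 16) P O := by
    have := mul_le_mul_of_nonneg_left b2 hdl
    linarith
  have b5 := hC1 t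
  unfold phiO
  rw [abs_le] at b1 b4 b5 ⊢
  constructor <;> linarith [b1.1, b1.2, b4.1, b4.2, b5.1, b5.2]

lemma adm : NUC43.Adm P.jL P.e := by
  have h1 := h.pg.j1
  have h2 := h.pg.j2
  have h3 := h.pg.e1
  have h4 := h.pg.e2 0
  have h5 := h.pg.d0 0
  exact ⟨by linarith, by linarith, by linarith, by linarith⟩

/-- **regularity of the data** -/
theorem reg (hQ : ∀ a, ContDiff ℝ 1 (Qr I P O a)) : Reg (datO I P O) where
  μi a := (NUC43.dn_muC h.adm O a).int.add (h.νi a)
  μc a := (NUC43.dn_muC h.adm O a).cont.add (h.νc a)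
  μb a := by
    obtain ⟨C1, h0, h1⟩ := (NUC43.dn_muC h.adm O a).bdd
    obtain ⟨C2, h2⟩ := h.νb a
    exact ⟨C1 + C2, fun t => (abs_add_le _ _).trans (add_le_add (h1 t) (h2 t))⟩
  φc a := (h.phi_C1 hQ a).continuous
  φb a := h.phi_bdd a
  Ec a := (slO_bc a).1.add (h.Bc a)
  Eb a := by
    obtain ⟨C1, h1⟩ := (slO_bc (O := O) a).2
    obtain ⟨C2, h2⟩ := h.Bb a
    exact ⟨C1 + C2, fun t => (abs_add_le _ _).trans (add_le_add (h1 t) (h2 t))⟩

end IOk

/-- **the geometry of the data** -/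
theorem exists_geo : ∃ K : ℝ, 20 ≤ K ∧ ∀ {r : ℕ} {I : Inp} {P : Par} {O : Fin r → Xo}
    {dl ε M b : ℝ} {e : ℝ → ℝ}, IOk dl ε M b e I P r → K * ε ≤ 1 → Geo (datO I P O) (K * ε) := by
  obtain ⟨K, hK, H⟩ := NU42.exists_line
  refine ⟨K, hK, fun {r I P O dl ε M b e} h hs => ?_⟩
  obtain ⟨h1, h2, h3, h4, h5, h6⟩ := H ε b I.η I.η1 I.η I.η1 h.crv h.crv hs
  have hl := NUMF.l_pos
  refine ⟨h.s0, ⟨NUMF.l / 10, 1 / 2, 2, by linarith, fun _ => h.path, fun a => h.ext a⟩, ?_, ?_⟩
  · rw [datO_D, datO_D1, datO_D, datO_D1]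
    exact h1
  · intro a d
    have h7 := h3 a d
    unfold Dat.κ
    rw [datO_D, datO_D1, datO_D]
    cases a <;> cases d <;> exact h7

/-- the equation of the data, `n` quanta of each species in all -/
theorem IOk.fld' (h : IOk dl ε M b e I P r) {nX nY : ℕ} (h1 : chgO O true ≤ nX)
    (h2 : chgO O false ≤ nY) (hn : ∫ x, I.τD x = (nX : ℝ) - nY) :
    Fld (datO I P O) (nX - chgO O true) (nY - chgO O false) := by
  refine h.fld ?_
  rw [sum_kq, Nat.cast_sub h1, Nat.cast_sub h2, hn]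
  ring

end

end NUSea.H0
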