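import Pool.Agent.NUSea.H0.CfgS
import Pool.Agent.NUSea.H0.DatNC
import Pool.Agent.NUGC.CfgC
import Pool.Agent.NUGC.DrT

/-!
# The exponent `En` of the data of a configuration with spectators, general sea

`X = datO I P O` with `I.ν a = muS T a`, `I.τD = tauS T` for a family `T` of sources (spectators) and
any analytic potentials `I.A`, real potentials `I.B`:

`En = ∑_i [s mfo + s slk - 2 π wK s P η] + 1/2 ∑∑ ER + ∑_i ∑_d ES(O_i, T_d) + 1/2 ∑∑ ES(T, T)
  + ∫ s P Re Ψ - Re ∫ B Ψ(ζ) + ∑_a ∫ s P B_a + ∑_a ∫ μ_a φ_a + bil h' h' + small`, `Ψ = A true + A false`.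
-/

set_option autoImplicit false
set_option linter.unusedSectionVars false

open MeasureTheory Set Filter Topology Complex

namespace NUSea.H0

noncomputable section

open NUO (Kind Xo kd ht Par PG wK cons lpL slkK)
open NUC43 (slk tauC muC sgX sgY sgT Adm)
open NUH0 (slO slO_bc)
open NUGC (Sr ES muS tauS obSr)
open Pool.Agent.NUM3 (ER)

variable [Sea]

variable {r : ℕ}

/-! ### the slack against the density of the sea -/

lemma P_slk_int (x : ℝ) : Integrable fun t => P t * slk (t - x) := by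
  obtain ⟨M, D, hM, -, -, h3, -⟩ := NUC43.slk_deriv
  have hc := NUC43.slk_cont
  refine P_int.mul_bdd (c := M) (Continuous.aestronglyMeasurable (by fun_prop))
    (Eventually.of_forall fun t => ?_)
  rw [Real.norm_eq_abs]
  refine (h3 _).trans ?_
  have : Real.exp (-(5 / 2) * |t - x|) ≤ 1 := Real.exp_le_one_iff.2 (by
    have := abs_nonneg (t - x)
    linarith)
  exact mul_le_of_le_one_right hM this

lemma slkK_int (K : Kind) (x : ℝ) : Integrable (fun t => P t * slkK slk K (t - x)) ∧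
    ∫ t, P t * slkK slk K (t - x) = slkK (fun t => ∫ u, P u * slk (u - t)) K x := by
  cases K
  · simp [slkK]
  · simp [slkK]
  · exact ⟨P_slk_int x, rfl⟩
  · constructor
    · exact ((P_slk_int x).div_const 2).congr (Eventually.of_forall fun t => by simp only [slkK]; ring)
    · simp only [slkK]
      rw [← integral_div]
      congr 1
      funext t
      ring
  · simp [slkK]

lemma slO_int (O : Fin r → Xo) (a : Bool) : Integrable (fun t => P t * slO O a t) ∧
    ∫ t, P t * slO O a t = ∑ i, if NUO.sp (O i) = a then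
      slkK (fun t => ∫ u, P u * slk (u - t)) (kd (O i)) (ht (O i)) else 0 := by
  have h1 : ∀ i, Integrable fun t => P t * (if NUO.sp (O i) = a then
      slkK slk (kd (O i)) (t - ht (O i)) else 0) := by
    intro i
    split_ifs
    · exact (slkK_int _ _).1
    · simp
  unfold slO
  simp_rw [Finset.mul_sum]
  refine ⟨integrable_finsetSum _ fun i _ => h1 i, ?_⟩
  rw [integral_finsetSum _ fun i _ => h1 i]
  refine Finset.sum_congr rfl fun i _ => ?_
  split_ifs
  · exact (slkK_int _ _).2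
  · simp

lemma slO_sum (O : Fin r → Xo) : ∑ a, ∫ t, P t * slO O a t =
    ∑ i, slkK (fun t => ∫ u, P u * slk (u - t)) (kd (O i)) (ht (O i)) := by
  simp_rw [(slO_int O _).2]
  rw [Fintype.sum_bool, ← Finset.sum_add_distrib]
  refine Finset.sum_congr rfl fun i _ => ?_
  rcases NUO.sp (O i) <;> simp

lemma P_B_int {B : ℝ → ℝ} (hc : Continuous B) {C : ℝ} (hC : ∀ t, |B t| ≤ C) :
    Integrable fun t => P t * B t := int_mul_bc P_int hc hC

/-! ### symmetric energies -/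

/-- two sources of charges have a symmetric energy -/
theorem sym_ch {α α' q q' q0 q0' : ℝ} {a b A B a' b' A' B' pa pb pa' pb' : ℝ → ℝ} {F G F' G' : ℂ → ℂ}
    (h : NUC43.Chg α q a b A B F G) (h' : NUC43.Chg α' q' a' b' A' B' F' G') (s s' : Bool) (t t' : ℝ) :
    NUGC.Sym (NUGC.chSr s q0 pa pb F G t) (NUGC.chSr s' q0' pa' pb' F' G' t') := by
  unfold NUGC.Sym
  rw [NUGC.ES_eq_ERc, NUGC.ES_eq_ERc, NUGC.ERc_comm h h', NUGC.ERc_swap h' h]
  congr 1
  cases s <;> cases s' <;> rfl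

/-- an object and a source of a charge -/
theorem sym_ob {j e : ℝ} (hj : Adm j e) {α q q0 : ℝ} {a b A B pa pb : ℝ → ℝ} {F G : ℂ → ℂ}
    (h : NUC43.Chg α q a b A B F G) (x : Xo) (s : Bool) (t : ℝ) :
    NUGC.Sym (obSr j e x) (NUGC.chSr s q0 pa pb F G t) := sym_ch (NUC43.chgK hj (kd x)) h _ _ _ _

/-! ### the exponent -/

/-- **The exponent of a configuration with spectators.** -/
theorem En_cfgC {δ : ℝ} (hδ : 0 < δ) (hδ1 : δ ≤ 2 / 7) : ∃ C : ℝ, 1 ≤ C ∧
    ∀ (ε M b K : ℝ) (e : ℝ → ℝ) (I : Inp) (Q : Par) (r : ℕ) (O' : Fin r → Xo) (κ : Type) [Fintype κ]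
      (T : κ → Sr), PG δ Q → Adm Q.jL Q.e → 0 ≤ I.s → Cur I.s ε M b e I.η →
      (∀ t, HasDerivAt I.η (I.η1 t) t) → 0 ≤ b → C * (b + 1) ^ 7 * ε ≤ 1 → 0 ≤ K →
      (∀ t t', |I.s * P t * I.η t - I.s * P t' * I.η t'| ≤ K * |t - t'|) →
      (∀ a, NUAct.Ext (δ * NUMF.l / 2) (I.A a)) → (∀ a, Integrable fun t => P t * I.B a t) →
      (∀ d, (T d).Ok) → (∀ i d, NUGC.Sym (obSr Q.jL Q.e (O' i)) (T d)) →
      (∀ a, I.ν a = muS T a) → I.τD = tauS T →
      |(datO I Q O').En - ((∑ i, (I.s * (∫ t, P t * lpL (cons Q O' i) (NUP1.vl NUP1.l t)) +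
          I.s * slkK (fun t => ∫ u, P u * slk (u - t)) (kd (O' i)) (ht (O' i)) -
          2 * Real.pi * (wK (kd (O' i)) * (I.s * P (ht (O' i)) * I.η (ht (O' i)))))) +
        1 / 2 * (∑ i, ∑ k, ER (sgX Q.jL Q.e) (sgY Q.jL Q.e) (sgT Q.jL Q.e)
          (NUO.sp (O' i) == NUO.sp (O' k)) (kd (O' i)) (kd (O' k)) (ht (O' i)) (ht (O' k))) +
        (∑ i, ∑ d, ES (obSr Q.jL Q.e (O' i)) (T d)) + 1 / 2 * (∑ d, ∑ d', ES (T d) (T d')) +
        (∫ t : ℝ, I.s * P t * (I.A true t + I.A false t).re) -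
        (∫ t, Bf I.s (NUKer.iD I.η) (NUKer.iD I.η1) t * (I.A true (NUAct.zt (NUKer.iD I.η) t) +
          I.A false (NUAct.zt (NUKer.iD I.η) t))).re +
        (∑ a, ∫ t, I.s * P t * I.B a t) +
        (∑ a, ∫ t, (datO I Q O').μ a t * (datO I Q O').φ a t) +
        NUCR.bil (NUSea.hd I.s I.η I.η1) (NUSea.hd I.s I.η I.η1))| ≤
        C * r * (M * ε + K) + C * (b + 1) ^ 9 * M ^ 2 * ε := by
  obtain ⟨C, hC, H⟩ := S_cfg hδ hδ1
  refine ⟨C, hC, ?_⟩
  intro ε M b K e I Q r O' κ _ T hQ hA hs hcur h1 hb hsm hK hKL hAe hB hT hsy hν hτ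
  have h2 := H I.s ε M b K e I.η I.η1 Q r O' I.A hQ hs hcur h1 hb hsm hK hKL hAe
  have hS : (datO I Q O').gas.S =
      (NUSea.Ev.gs I.s I.η I.η1 (fun a z => NUO.FO Q O' a z + I.A a z)).S := rfl
  have hE := NUGC.cfgM_energy hA O' hT hsy
  have e1 : (∫ t, (datO I Q O').τ t * (datO I Q O').Gt t) =
      ∫ t, NUGC.tauM Q.jL Q.e O' T t * NUC43.lgp (NUGC.tauM Q.jL Q.e O' T) t := by
    have : (datO I Q O').τ = NUGC.tauM Q.jL Q.e O' T := by
      funext t
      show tauC Q.jL Q.e O' t + I.τD t = _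
      rw [hτ]
      rfl
    unfold Dat.Gt NUC43.lgp
    rw [this]
  have e2 : ∀ a, (∫ t, (datO I Q O').μ a t * (datO I Q O').Vm a t) =
      ∫ t, NUGC.muM Q.jL Q.e O' T a t * ∫ u, NUGC.muM Q.jL Q.e O' T a u * NUMF.V (t - u) := by
    intro a
    have : (datO I Q O').μ a = NUGC.muM Q.jL Q.e O' T a := by
      funext t
      show muC Q.jL Q.e O' a t + I.ν a t = _
      rw [hν]
      rfl
    unfold Dat.Vm
    rw [this]
  have e3 : ∀ a, (∫ t, (datO I Q O').ρ t * (datO I Q O').E a t) =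
      I.s * (∫ t, P t * slO O' a t) + ∫ t, I.s * P t * I.B a t := by
    intro a
    have i1 := (slO_int O' a).1.const_mul I.s
    have i2 : Integrable fun t => I.s * P t * I.B a t :=
      ((hB a).const_mul I.s).congr (Eventually.of_forall fun t => by simp only []; ring)
    rw [← integral_const_mul, ← integral_add i1 i2]
    congr 1
    funext t
    show I.s * P t * (slO O' a t + I.B a t) = _
    ring
  have e4 := slO_sum O'
  have hEn : (datO I Q O').En =
      (NUSea.Ev.gs I.s I.η I.η1 (fun a z => NUO.FO Q O' a z + I.A a z)).S +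
      (1 / 2 * (∑ i, ∑ k, ER (sgX Q.jL Q.e) (sgY Q.jL Q.e)
      (sgT Q.jL Q.e) (NUO.sp (O' i) == NUO.sp (O' k)) (kd (O' i)) (kd (O' k)) (ht (O' i)) (ht (O' k))) +
      (∑ i, ∑ d, ES (obSr Q.jL Q.e (O' i)) (T d)) + 1 / 2 * (∑ d, ∑ d', ES (T d) (T d'))) +
      I.s * (∑ i, slkK (fun t => ∫ u, P u * slk (u - t)) (kd (O' i)) (ht (O' i))) +
      (∑ a, ∫ t, I.s * P t * I.B a t) + ∑ a, ∫ t, (datO I Q O').μ a t * (datO I Q O').φ a t := by
    unfold Dat.En
    rw [hS, e1]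
    simp_rw [e2, e3]
    rw [← hE, ← e4, Fintype.sum_bool, Fintype.sum_bool, Fintype.sum_bool, Fintype.sum_bool, Fintype.sum_bool]
    ring
  have e5 : (∑ i, (I.s * (∫ t, P t * lpL (cons Q O' i) (NUP1.vl NUP1.l t)) +
      I.s * slkK (fun t => ∫ u, P u * slk (u - t)) (kd (O' i)) (ht (O' i)) -
      2 * Real.pi * (wK (kd (O' i)) * (I.s * P (ht (O' i)) * I.η (ht (O' i)))))) =
      (∑ i, (I.s * (∫ t, P t * lpL (cons Q O' i) (NUP1.vl NUP1.l t)) -
        2 * Real.pi * (wK (kd (O' i)) * (I.s * P (ht (O' i)) * I.η (ht (O' i)))))) +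
      I.s * (∑ i, slkK (fun t => ∫ u, P u * slk (u - t)) (kd (O' i)) (ht (O' i))) := by
    rw [Finset.mul_sum, ← Finset.sum_add_distrib]
    exact Finset.sum_congr rfl fun i _ => by ring
  rw [e5, hEn]
  refine le_trans (le_of_eq ?_) h2
  congr 1
  ring

end

end NUSea.H0
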