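import Pool.Agent.NUSea.H0.SharpC
import Pool.Agent.NUSea.H0.DatNC
import Pool.Agent.NUO.InstG

/-!
# The instance of a configuration from `DatC`, general sea
-/

set_option autoImplicit false

noncomputable section

open MeasureTheory Finset
open scoped ENNReal

namespace NUSea.H0

open NUO NUStabP NUDispW NUEnW
open NUH0 (plt plt_nonneg qc)

variable [Sea]

lemma bmaj_hts {r G : ℕ} (O : Fin r → Xo) (g : Fin G → ℝ) (c t : ℝ) :
    bmaj Finset.univ (hts O g) c t =
      bmaj Finset.univ (fun i => ht (O i)) c t + bmaj Finset.univ g c t := by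
  unfold bmaj hts
  rw [Fin.sum_univ_add]
  simp only [Fin.append_left, Fin.append_right]

/-- **the instance of a configuration** -/
theorem instC : InstC := by
  intro G ep hep hep1 e1 he he1 k κ CB hκ hCB
  have hadm : NUC43.Adm (9 / 4) (1 / 4) := ⟨by norm_num, by norm_num, by norm_num, by norm_num⟩
  obtain ⟨Kg, hKg, Hgeo⟩ := exists_geo
  obtain ⟨Kφ, hKφ, Hφ⟩ := exists_phi_le
  obtain ⟨KN, hKN, HN⟩ := exists_NT
  obtain ⟨Mm, hMm, Hm⟩ := NUC43.muC_bd hadm
  obtain ⟨A, hA⟩ : ∃ A : ℝ, A = 1 + 3 * Kφ + CB + Mm := ⟨_, rfl⟩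
  have hA1 : 1 ≤ A := by rw [hA]; linarith
  refine ⟨A, hA1, ?_⟩
  intro x hx
  obtain ⟨y, hy⟩ : ∃ y : ℝ, y = x / (16 * KN) := ⟨_, rfl⟩
  have hy0 : 0 < y := by rw [hy]; positivity
  have hyK : KN * y ≤ x / 16 := by
    rw [hy]
    apply le_of_eq
    field_simp
  -- numbers
  obtain ⟨m1, hm1⟩ := NUS4.log_pow_small 0 hκ Kg
  obtain ⟨m2, hm2⟩ := NUS4.log_pow_small k hκ 1
  obtain ⟨m3, hm3⟩ := NUS4.log_pow_small (2 * k + 1) (show 0 < 2 * κ by positivity) 1
  obtain ⟨m4, hm4⟩ := NUS4.log_pow_small 0 (show 0 < 2 * κ by positivity) (18 / y)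
  obtain ⟨m5, hm5⟩ := (Real.tendsto_log_atTop.comp tendsto_natCast_atTop_atTop).eventually
    (Filter.eventually_ge_atTop (1 / y)) |>.exists_forall_of_atTop
  refine ⟨x / 24, 8 * KN + 6 * CB + x, by positivity, by positivity,
    max (max (max m1 m2) (max m3 m4)) (max m5 3), ?_⟩
  intro m hm I P r O g p n aX aY cf B1 T1 D q S hD
  have hM1 : m1 ≤ m := (le_max_left _ _).trans ((le_max_left _ _).trans ((le_max_left _ _).trans hm))
  have hM2 : m2 ≤ m := (le_max_right _ _).trans ((le_max_left _ _).trans ((le_max_left _ _).trans hm))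
  have hM3 : m3 ≤ m := (le_max_left _ _).trans ((le_max_right _ _).trans ((le_max_left _ _).trans hm))
  have hM4 : m4 ≤ m := (le_max_right _ _).trans ((le_max_right _ _).trans ((le_max_left _ _).trans hm))
  have hM5 : m5 ≤ m := (le_max_left _ _).trans ((le_max_right _ _).trans hm)
  have hm3' : 3 ≤ m := (le_max_right _ _).trans ((le_max_right _ _).trans hm)
  have hmr : (3:ℝ) ≤ m := by exact_mod_cast hm3'
  have hmp : (0:ℝ) < m := by linarith
  obtain ⟨L, hL⟩ : ∃ L, L = Real.log m := ⟨_, rfl⟩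
  have hL0 : 0 ≤ L := by rw [hL]; exact Real.log_nonneg (by linarith)
  obtain ⟨z, hz⟩ : ∃ z, z = (m : ℝ) ^ (-κ) := ⟨_, rfl⟩
  have hz0 : 0 ≤ z := by rw [hz]; exact (Real.rpow_pos_of_pos hmp _).le
  have hz2 : z ^ 2 = (m : ℝ) ^ (-(2 * κ)) := by
    rw [hz, ← Real.rpow_natCast, ← Real.rpow_mul hmp.le]
    congr 1
    push_cast
    ring
  have n1 : Kg * z ≤ 1 := by
    have := hm1 m hM1
    rw [pow_zero, mul_one, ← hz] at this
    exact this
  have n2 : L ^ k * z ≤ 1 := by
    have := hm2 m hM2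
    rw [one_mul, ← hz, ← hL] at this
    exact this
  have n3 : L ^ (2 * k + 1) * z ^ 2 ≤ 1 := by
    have := hm3 m hM3
    rw [one_mul, ← hz2, ← hL] at this
    exact this
  have n4 : 18 * z ^ 2 ≤ y := by
    have := hm4 m hM4
    rw [pow_zero, mul_one, ← hz2, div_mul_eq_mul_div, div_le_one hy0] at this
    exact this
  have n5 : 1 ≤ y * (1 + L) := by
    have h1 : 1 / y ≤ L := by
      have := hm5 m hM5
      rw [hL]
      exact this
    rw [div_le_iff₀ hy0] at h1
    nlinarith
  obtain ⟨dl, ε, M, e, hok, hε, hM, hdl⟩ := hD.ok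
  rw [← hz] at hε hdl
  rw [← hL] at hM
  have hεn := hok.cur.ε0
  have hMn := hok.cur.M0 hok.s0
  have hMe : M * ε ≤ 1 := by
    calc M * ε ≤ L ^ k * z := by gcongr
      _ ≤ 1 := n2
  have hrr := sum_rr hD.par (by omega) O
  have hrr0 : 0 ≤ ∑ i, rr P O i := Finset.sum_nonneg fun i _ => (hok.rr1 i).1
  rw [← hL] at hrr
  have hr1 : ∑ i, rr P O i ≤ 1 := hrr.trans (by
    rw [div_le_one (by linarith)]
    linarith)
  have hr0 : (0:ℝ) ≤ r := Nat.cast_nonneg r
  have hw0 := win_nonneg (Finset.univ : Finset (Fin r)) (fun i => ht (O i))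
  have hw1 := NUS4.win_le_sq (fun i => ht (O i))
  constructor
  · have hsk : (datO I P O).s ≤ 8 * (m : ℝ) := by
      show I.s ≤ 8 * (m : ℝ)
      linarith [hD.s2]
    refine ⟨hD.pk, hD.nk, hsk, ?_, hD.fld, hok.reg', ?_,
      ?_, ?_, ?_, fun a => datO_D I P O a, fun a => datO_D1 I P O a, fun _ => hok.der,
      fun _ => ⟨ε, M, e, hok.cur, hε.trans_eq hz⟩⟩
    · exact ⟨Kg * ε, Hgeo hok (le_trans (by gcongr) n1)⟩
    · exact fun a t => ((hok.phi_C1 (fun a => hok.Qr_C1 a) a).differentiable (by norm_num) t).hasDerivAt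
    · exact fun a => (hok.phi_C1 (fun a => hok.Qr_C1 a) a).continuous_deriv le_rfl
    · intro a t
      have h1 := Hφ (O := O) hok a t
      have h2 := hD.w0 a t
      have h3 : dl * r ≤ r := by
        have := hok.d2
        nlinarith
      have h4 : M * ε + dl * r + ∑ i, rr P O i ≤ 2 + r := by linarith
      have h5 : |phiO I P O a t| ≤ Kφ * (2 + r) + CB := by
        refine h1.trans (add_le_add ?_ h2)
        gcongr
      have h6 : 1 ≤ (r : ℝ) + 1 + L := by linarith
      show |phiO I P O a t| ≤ qc A (r + G) m ^ 2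
      have hG0 : (0 : ℝ) ≤ G := Nat.cast_nonneg G
      unfold qc
      rw [← hL]
      push_cast
      have h7 : Kφ * (2 + r) + CB ≤ A * (r + 1 + L) := by
        have h8 : Kφ * (2 + r) + CB ≤ (3 * Kφ + CB) * (r + 1 + L) := by
          have h9 : 0 ≤ CB * (r + L) := by positivity
          nlinarith
        have h9 : (3 * Kφ + CB) * (r + 1 + L) ≤ A * (r + 1 + L) :=
          mul_le_mul_of_nonneg_right (by rw [hA]; linarith) (by linarith)
        linarith
      have h10 : A * (r + 1 + L) ≤ A * (r + G + 1 + L) := by gcongr; linarith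
      have h11 : 1 ≤ A * (r + G + 1 + L) := by nlinarith
      nlinarith
    · intro a t
      have h1 := (Hm (Fin r) O a t).1
      have h2 : |I.ν a t| ≤ CB * (bmaj Finset.univ g (5 / 2) t + plt (TW ep e1 m) t) := by
        refine (hD.ν0 a t).trans_eq ?_
        unfold bmaj
        congr 2
      have h3 : |NUC43.muC P.jL P.e O a t| ≤ Mm * bmaj Finset.univ (fun i => ht (O i)) (5 / 2) t := by
        rw [hD.par.jL, hD.par.e]
        refine h1.trans_eq ?_
        unfold bmaj
        congr 1
        exact Finset.sum_congr rfl fun i _ => by ring_nf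
      have hb0 : 0 ≤ bmaj Finset.univ (fun i => ht (O i)) (5 / 2) t := bmaj_nonneg _ _ _ _
      have hp0 := plt_nonneg (TW ep e1 m) t
      show |NUC43.muC P.jL P.e O a t + I.ν a t| ≤ _
      refine (abs_add_le _ _).trans ?_
      have h4 : Mm * bmaj Finset.univ (fun i => ht (O i)) (5 / 2) t ≤
          A * bmaj Finset.univ (fun i => ht (O i)) (5 / 2) t := by
        gcongr
        rw [hA]
        linarith
      have hb1 : 0 ≤ bmaj Finset.univ g (5 / 2) t := bmaj_nonneg _ _ _ _
      have h5 : CB * (bmaj Finset.univ g (5 / 2) t + plt (TW ep e1 m) t) ≤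
          A * (bmaj Finset.univ g (5 / 2) t + plt (TW ep e1 m) t) := by
        gcongr
        rw [hA]
        linarith
      rw [bmaj_hts]
      nlinarith
  · intro T hT
    have hNW : ∀ a, NW I T a ≤ CB + x / 24 * (T + 1) := fun a => hD.w1 a T hT
    have hN : ∀ a, Nl (datO I P O) T a ≤ KN * (2 + y * win Finset.univ (fun i => ht (O i)) +
        y * (T + 1)) + 3 * (CB + x / 24 * (T + 1)) := by
      intro a
      refine (HN hok T hT a).trans ?_
      have h1 : (M * ε) ^ 2 * ((1 - e1) * Tb (Real.log m)) ≤ 1 := by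
        have h2 : (1 - e1) * Tb (Real.log m) ≤ L := by
          rw [← hL]
          unfold Tb
          nlinarith
        have h3 : (M * ε) ^ 2 ≤ (L ^ k * z) ^ 2 := by gcongr
        calc (M * ε) ^ 2 * ((1 - e1) * Tb (Real.log m)) ≤ (L ^ k * z) ^ 2 * L := by
              have : 0 ≤ (1 - e1) * Tb (Real.log m) := hok.b0
              gcongr
          _ = L ^ (2 * k + 1) * z ^ 2 := by ring
          _ ≤ 1 := n3
      have h2 := dl_win (x := y) hok.dl0 hdl hz0 n4 hw0 hw1
      have h3 : (∑ i, rr P O i) ^ 2 * (T + 1) ≤ y * (T + 1) := by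
        gcongr
        have h4 : (∑ i, rr P O i) ^ 2 ≤ ∑ i, rr P O i := by nlinarith
        have h5 : 1 / (1 + L) ≤ y := by
          rw [div_le_iff₀ (by linarith)]
          exact n5
        linarith
      have h4 := hNW a
      have h5 : KN * ((M * ε) ^ 2 * ((1 - e1) * Tb (Real.log m)) +
          dl ^ 2 * win Finset.univ (fun i => ht (O i)) + (∑ i, rr P O i) ^ 2 * (T + 1)) ≤
          KN * (2 + y * win Finset.univ (fun i => ht (O i)) + y * (T + 1)) :=
        mul_le_mul_of_nonneg_left (by linarith) (by linarith)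
      linarith
    have h1 := hN true
    have h2 := hN false
    unfold NT
    have h3 : KN * (2 + y * win Finset.univ (fun i => ht (O i)) + y * (T + 1)) ≤
        2 * KN + x / 16 * win Finset.univ (fun i => ht (O i)) + x / 16 * (T + 1) := by
      have h4 : KN * y * win Finset.univ (fun i => ht (O i)) ≤
          x / 16 * win Finset.univ (fun i => ht (O i)) := by gcongr
      have h5 : KN * y * (T + 1) ≤ x / 16 * (T + 1) := by gcongr
      nlinarith
    have h6 : 0 ≤ x * win Finset.univ (fun i => ht (O i)) := by positivity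
    have h7 : 0 ≤ x * T := by positivity
    nlinarith

/-- **the crude bound of the gas of a configuration** -/
theorem crudeC : CrudeC := crudeC_of instC

/-- **the sharp bound of the gas of a configuration** -/
theorem sharpC : SharpC := sharpC_of instC

end NUSea.H0
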