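import Pool.Agent.NUSea.SEval
import Pool.Agent.NUSp.Tot
import Pool.Agent.NUO.DispW

/-!
# The current against the spectators, general sea (TARGET-C, G4)

`Ψ` = sum of the potentials of a group of spectators on the two species, neutral: `Ψ = a ± i φ +
O(κ e^{-2|Re z - τ|})` (`NUSp.Asy b κ 0 a φ τ Ψ`), `h = s P η` the current.  Then

`- Re ∫ B Ψ(ζ) = - 2 φ h(τ) + O(κ sup |h'|) + O((|a| + |φ| + κ) b M ε)`.
-/

set_option autoImplicit false
set_option linter.unusedSectionVars false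

open MeasureTheory Set Filter Topology Complex

namespace NUSea.H0

open NUMF (l l_pos)
open NUKer NUAct
open NUSea.Ev (zt_eq)
open NUSp (Asy)

noncomputable section

variable [Sea]

variable {s ε M b : ℝ} {e η η1 : ℝ → ℝ}

/-- real integral of `e^{-2|t - τ|}` -/
lemma int_e2 (τ : ℝ) : Integrable (fun t : ℝ => Real.exp (-2 * |t - τ|)) ∧
    ∫ t : ℝ, Real.exp (-2 * |t - τ|) = 1 := by
  have h := NUDispW.int_exp_abs (c := 2) (by norm_num) τ
  have e : (fun t : ℝ => Real.exp (-2 * |t - τ|)) = fun x => Real.exp (-(2 * |x - τ|)) := by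
    funext t; ring_nf
  rw [e]
  exact ⟨h.1, h.2.trans (by norm_num)⟩

/-- a current against a jump -/
lemma jump {h h' : ℝ → ℝ} {b τ : ℝ} (hd : ∀ t, HasDerivAt h (h' t) t) (hc : Continuous h')
    (h0 : ∀ t, b < |t| → h t = 0) (hb : 0 ≤ b) :
    ∫ t, h' t * (if τ ≤ t then (1:ℝ) else -1) = -2 * h τ := by
  obtain ⟨R, hR⟩ : ∃ R : ℝ, R = b + 1 + |τ| := ⟨_, rfl⟩
  have hτ := abs_nonneg τ
  have hτ1 := neg_abs_le τ
  have hτ2 := le_abs_self τ
  have hsup : ∀ t, b < |t| → h' t = 0 := by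
    intro t ht
    have hev : h =ᶠ[𝓝 t] fun _ => 0 := by
      filter_upwards [(continuous_abs.tendsto t).eventually (lt_mem_nhds ht)] with u hu
      exact h0 u hu
    have h1 := (hd t).congr_of_eventuallyEq hev.symm
    exact (hd t).unique ((hasDerivAt_const t (0:ℝ)).congr_of_eventuallyEq hev)
  have hRp : b < |R| := by rw [abs_of_pos (by linarith)]; linarith
  have hRm : b < |-R| := by rw [abs_neg]; exact hRp
  have e0 : ∫ t, h' t * (if τ ≤ t then (1:ℝ) else -1) =
      ∫ t in (-R)..R, h' t * (if τ ≤ t then (1:ℝ) else -1) := by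
    rw [intervalIntegral.integral_of_le (by linarith), ← integral_Icc_eq_integral_Ioc]
    refine (setIntegral_eq_integral_of_forall_compl_eq_zero fun t ht => ?_).symm
    have : b < |t| := by
      by_contra hh
      exact ht (abs_le.1 ((not_lt.1 hh).trans (by linarith)))
    rw [hsup t this, zero_mul]
  have hm : Measurable fun t : ℝ => if τ ≤ t then (1:ℝ) else -1 :=
    Measurable.ite measurableSet_Ici measurable_const measurable_const
  have hii : ∀ x y : ℝ, IntervalIntegrable (fun t => h' t * (if τ ≤ t then (1:ℝ) else -1)) volume x y := by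
    intro x y
    have h1 := hc.intervalIntegrable (μ := volume) x y
    have : IntervalIntegrable (fun t => (if τ ≤ t then (1:ℝ) else -1) * h' t) volume x y := by
      rw [intervalIntegrable_iff] at h1 ⊢
      exact Integrable.bdd_mul (c := 1) h1 hm.aestronglyMeasurable (Eventually.of_forall fun t => by
        split_ifs <;> simp)
    refine this.congr fun t _ => ?_
    exact mul_comm _ _
  rw [e0, ← intervalIntegral.integral_add_adjacent_intervals (hii (-R) τ) (hii τ R)]
  have e1 : ∫ t in (-R)..τ, h' t * (if τ ≤ t then (1:ℝ) else -1) = -(h τ - h (-R)) := by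
    rw [← intervalIntegral.integral_eq_sub_of_hasDerivAt (fun t _ => hd t)
      (hc.intervalIntegrable _ _), ← intervalIntegral.integral_neg]
    refine intervalIntegral.integral_congr_ae ?_
    have hne : ∀ᵐ t : ℝ, t ≠ τ := by
      have : volume ({τ} : Set ℝ) = 0 := by simp
      exact compl_mem_ae_iff.2 this
    filter_upwards [hne] with t ht ht2
    rw [uIoc_of_le (by linarith)] at ht2
    rw [if_neg (not_le.2 (lt_of_le_of_ne ht2.2 ht))]
    ring
  have e2 : ∫ t in τ..R, h' t * (if τ ≤ t then (1:ℝ) else -1) = h R - h τ := by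
    rw [← intervalIntegral.integral_eq_sub_of_hasDerivAt (fun t _ => hd t)
      (hc.intervalIntegrable _ _)]
    refine intervalIntegral.integral_congr fun t ht => ?_
    rw [uIcc_of_le (by linarith)] at ht
    rw [if_pos ht.1, mul_one]
  rw [e1, e2, h0 R hRp, h0 (-R) hRm]
  ring

/-- the function on a path near the line -/
lemma asy_le {B κ a φ τ : ℝ} {Ψ : ℂ → ℂ} (h : Asy B κ 0 a φ τ Ψ) {z : ℂ} (hz : |z.im| < B) :
    |(Ψ z).im - φ * (if τ ≤ z.re then (1:ℝ) else -1)| ≤ κ * Real.exp (-2 * |z.re - τ|) ∧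
    ‖Ψ z‖ ≤ |a| + |φ| + κ := by
  have hk : 0 ≤ κ := by
    by_contra hh
    have h1 := h.ar ((τ : ℂ) + z.im * I) (by simpa using hz) (by simp)
    have h2 := norm_nonneg (Ψ ((τ : ℂ) + z.im * I) - ((0:ℝ) * (((τ : ℂ) + z.im * I) - τ) + a + φ * I))
    have h3 : κ * Real.exp (-2 * |((τ : ℂ) + z.im * I).re - τ|) < 0 :=
      mul_neg_of_neg_of_pos (not_le.1 hh) (Real.exp_pos _)
    linarith
  have hexp : Real.exp (-2 * |z.re - τ|) ≤ 1 := by
    rw [Real.exp_le_one_iff]
    have := abs_nonneg (z.re - τ)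
    linarith
  rcases le_or_gt τ z.re with hτ | hτ
  · have h1 := h.ar z hz hτ
    have e1 : ((0:ℝ) : ℂ) * (z - τ) + a + φ * I = a + φ * I := by simp
    rw [e1] at h1
    constructor
    · rw [if_pos hτ, mul_one]
      refine le_trans ?_ h1
      have e : (Ψ z - (a + φ * I)).im = (Ψ z).im - φ := by simp
      rw [← e]
      exact Complex.abs_im_le_norm _
    · have h2 : ‖(a : ℂ) + φ * I‖ ≤ |a| + |φ| := by
        refine (norm_add_le _ _).trans (le_of_eq ?_)
        rw [norm_mul, Complex.norm_I, mul_one, Complex.norm_real, Complex.norm_real,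
          Real.norm_eq_abs, Real.norm_eq_abs]
      have h3 : ‖Ψ z‖ ≤ ‖Ψ z - (a + φ * I)‖ + ‖(a : ℂ) + φ * I‖ := by
        have := norm_add_le (Ψ z - (a + φ * I)) ((a : ℂ) + φ * I)
        rwa [sub_add_cancel] at this
      have h4 : κ * Real.exp (-2 * |z.re - τ|) ≤ κ := mul_le_of_le_one_right hk hexp
      linarith
  · have h1 := h.al z hz hτ.le
    have e1 : -((0:ℝ) : ℂ) * (z - τ) + a - φ * I = a - φ * I := by simp
    rw [e1] at h1
    constructor
    · rw [if_neg (not_le.2 hτ)]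
      refine le_trans ?_ h1
      have e : (Ψ z - (a - φ * I)).im = (Ψ z).im - φ * -1 := by simp
      rw [← e]
      exact Complex.abs_im_le_norm _
    · have h2 : ‖(a : ℂ) - φ * I‖ ≤ |a| + |φ| := by
        refine (norm_sub_le _ _).trans (le_of_eq ?_)
        rw [norm_mul, Complex.norm_I, mul_one, Complex.norm_real, Complex.norm_real,
          Real.norm_eq_abs, Real.norm_eq_abs]
      have h3 : ‖Ψ z‖ ≤ ‖Ψ z - (a - φ * I)‖ + ‖(a : ℂ) - φ * I‖ := by
        have := norm_add_le (Ψ z - (a - φ * I)) ((a : ℂ) - φ * I)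
        rwa [sub_add_cancel] at this
      have h4 : κ * Real.exp (-2 * |z.re - τ|) ≤ κ := mul_le_of_le_one_right hk hexp
      linarith

/-- **the current against a neutral group of spectators** -/
theorem exists_lin : ∃ C : ℝ, 1 ≤ C ∧ ∀ {s ε M b : ℝ} {e η η1 : ℝ → ℝ}, 0 ≤ s → ε ≤ 1 / 20 →
    Cur s ε M b e η → (∀ t, HasDerivAt η (η1 t) t) → 0 ≤ b →
    ∀ {B κ a φ τ A : ℝ} {Ψ : ℂ → ℂ}, ε < B → Asy B κ 0 a φ τ Ψ →
      (∀ z : ℂ, |z.im| < B → DifferentiableAt ℂ Ψ z) → (∀ t, |hd s η η1 t| ≤ A) →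
      Integrable (fun t => Bf s (iD η) (iD η1) t * Ψ (zt (iD η) t)) ∧
      |-(∫ t, Bf s (iD η) (iD η1) t * Ψ (zt (iD η) t)).re + 2 * φ * (s * P τ * η τ)| ≤
        κ * A + C * (|a| + |φ| + κ) * b * (M * ε) := by
  obtain ⟨C0, hC0, H0⟩ := exists_BB
  refine ⟨2 * C0, by linarith, ?_⟩
  intro s ε M b e η η1 hs hε hcur h1 hb B κ a φ τ A Ψ hεB hΨ hdiff hA
  have hBB := H0 hs hε hcur h1
  have hη : ∀ t, |η t| ≤ ε := fun t => (NUSea.Ev.le0 hcur t).trans (hcur.le t)
  have him : ∀ t, (zt (iD η) t).im = η t := fun t => by simp [NUAct.zt, iD]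
  have hre : ∀ t, (zt (iD η) t).re = t := fun t => by simp [NUAct.zt, iD]
  have hz : ∀ t, |(zt (iD η) t).im| < B := fun t => by rw [him]; exact (hη t).trans_lt hεB
  have hηc : Continuous η := continuous_iff_continuousAt.2 fun t => (h1 t).continuousAt
  have hzc : Continuous (zt (iD η)) := by
    have : zt (iD η) = fun t : ℝ => (t : ℂ) + (η t : ℂ) * I := by
      funext t
      simp [NUAct.zt, iD]
    rw [this]
    fun_prop
  have hΨc : Continuous fun t => Ψ (zt (iD η) t) :=
    continuous_iff_continuousAt.2 fun t => (hdiff _ (hz t)).continuousAt.comp hzc.continuousAt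
  obtain ⟨N, hN⟩ : ∃ N : ℝ, N = |a| + |φ| + κ := ⟨_, rfl⟩
  have hΨb : ∀ t, ‖Ψ (zt (iD η) t)‖ ≤ N := fun t => by rw [hN]; exact (asy_le hΨ (hz t)).2
  have hN0 : 0 ≤ N := (norm_nonneg _).trans (hΨb 0)
  have hM0 := hcur.M0 hs
  have hε0 := hcur.ε0
  have hMε : 0 ≤ M * ε := mul_nonneg hM0 hε0
  -- compact supports
  have hcs : ∀ {f : ℝ → ℂ}, Continuous f → (∀ t, b < |t| → f t = 0) → Integrable f := by
    intro f hf h0
    refine hf.integrable_of_hasCompactSupport ?_
    refine HasCompactSupport.of_support_subset_isCompact (isCompact_Icc (a := -b) (b := b)) ?_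
    intro t ht
    by_contra hh
    exact ht (h0 t (by
      by_contra h2
      exact hh (abs_le.1 (not_lt.1 h2))))
  have i0 : Integrable (fun t => Bf s (iD η) (iD η1) t * Ψ (zt (iD η) t)) :=
    hcs (hBB.cont.mul hΨc) fun t ht => by rw [hBB.supp t ht, zero_mul]
  have i1 : Integrable (fun t => ((hd s η η1 t : ℂ) * I) * Ψ (zt (iD η) t)) :=
    hcs (((Complex.continuous_ofReal.comp hBB.hc).mul continuous_const).mul hΨc) fun t ht => by
      rw [hBB.hsupp t ht]; simp
  have i2 : Integrable (fun t => Br s (iD η) (iD η1) t * Ψ (zt (iD η) t)) :=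
    hcs (hBB.rc.mul hΨc) fun t ht => by rw [hBB.rsupp t ht, zero_mul]
  refine ⟨i0, ?_⟩
  have e1 : ∫ t, Bf s (iD η) (iD η1) t * Ψ (zt (iD η) t) =
      (∫ t, ((hd s η η1 t : ℂ) * I) * Ψ (zt (iD η) t)) + ∫ t, Br s (iD η) (iD η1) t * Ψ (zt (iD η) t) := by
    rw [← integral_add i1 i2]
    congr 1
    funext t
    rw [B_eq]
    ring
  have e2 : (∫ t, ((hd s η η1 t : ℂ) * I) * Ψ (zt (iD η) t)).re =
      -∫ t, hd s η η1 t * (Ψ (zt (iD η) t)).im := by
    have := integral_re i1
    simp only [RCLike.re_to_complex] at this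
    rw [← this, ← integral_neg]
    congr 1
    funext t
    have : ((hd s η η1 t : ℂ) * I) * Ψ (zt (iD η) t) = (hd s η η1 t : ℂ) * (I * Ψ (zt (iD η) t)) := by
      ring
    rw [this, Complex.re_ofReal_mul, Complex.I_mul_re]
    ring
  -- the rest
  have b2 : |(∫ t, Br s (iD η) (iD η1) t * Ψ (zt (iD η) t)).re| ≤ 2 * C0 * N * b * (M * ε) := by
    refine (Complex.abs_re_le_norm _).trans ?_
    have e3 : ∫ t, Br s (iD η) (iD η1) t * Ψ (zt (iD η) t) =
        ∫ t in Icc (-b) b, Br s (iD η) (iD η1) t * Ψ (zt (iD η) t) := by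
      refine (setIntegral_eq_integral_of_forall_compl_eq_zero fun t ht => ?_).symm
      have : b < |t| := by
        by_contra hh
        exact ht (abs_le.1 (not_lt.1 hh))
      rw [hBB.rsupp t this, zero_mul]
    rw [e3]
    have h5 := norm_setIntegral_le_of_norm_le_const (μ := volume) (s := Icc (-b) b)
      (f := fun t => Br s (iD η) (iD η1) t * Ψ (zt (iD η) t)) (C := C0 * (M * ε) * N)
      (by simp) (fun t _ => by
        rw [norm_mul]
        exact mul_le_mul (hBB.rle t) (hΨb t) (norm_nonneg _) (by positivity))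
    refine h5.trans (le_of_eq ?_)
    rw [Measure.real, Real.volume_Icc, ENNReal.toReal_ofReal (by linarith)]
    ring
  -- the main part
  have hh : ∀ t, b < |t| → s * P t * η t = 0 := fun t ht => by
    rw [NUSea.Ev.out0 hcur ht, mul_zero]
  have hj := jump (τ := τ) (hasDerivAt_hd s h1) hBB.hc hh hb
  have hA0 : 0 ≤ A := (abs_nonneg _).trans (hA 0)
  obtain ⟨ie, ee⟩ := int_e2 τ
  have hm : Measurable fun t : ℝ => if τ ≤ t then (1:ℝ) else -1 :=
    Measurable.ite measurableSet_Ici measurable_const measurable_const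
  have ih : Integrable (hd s η η1) := by
    refine hBB.hc.integrable_of_hasCompactSupport ?_
    refine HasCompactSupport.of_support_subset_isCompact (isCompact_Icc (a := -b) (b := b)) ?_
    intro t ht
    by_contra hh2
    exact ht (hBB.hsupp t (by
      by_contra h2
      exact hh2 (abs_le.1 (not_lt.1 h2))))
  have ij : Integrable fun t => hd s η η1 t * (if τ ≤ t then (1:ℝ) else -1) := by
    have := ih.bdd_mul (c := 1) hm.aestronglyMeasurable (Eventually.of_forall fun t => by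
        split_ifs <;> simp)
    exact this.congr (Eventually.of_forall fun t => mul_comm _ _)
  have ii : Integrable fun t => hd s η η1 t * (Ψ (zt (iD η) t)).im := by
    have := ih.bdd_mul (c := N) (Complex.continuous_im.comp hΨc).aestronglyMeasurable
      (Eventually.of_forall fun t => (Complex.abs_im_le_norm _).trans (hΨb t))
    exact this.congr (Eventually.of_forall fun t => mul_comm _ _)
  have e4 : (∫ t, hd s η η1 t * (Ψ (zt (iD η) t)).im) + 2 * φ * (s * P τ * η τ) =
      ∫ t, hd s η η1 t * ((Ψ (zt (iD η) t)).im - φ * (if τ ≤ t then (1:ℝ) else -1)) := by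
    have e5 : ∀ t, hd s η η1 t * ((Ψ (zt (iD η) t)).im - φ * (if τ ≤ t then (1:ℝ) else -1)) =
        hd s η η1 t * (Ψ (zt (iD η) t)).im - φ * (hd s η η1 t * (if τ ≤ t then (1:ℝ) else -1)) := by
      intro t; ring
    simp_rw [e5]
    rw [integral_sub ii (ij.const_mul φ), integral_const_mul, hj]
    ring
  have b1 : |(∫ t, hd s η η1 t * (Ψ (zt (iD η) t)).im) + 2 * φ * (s * P τ * η τ)| ≤ κ * A := by
    rw [e4, ← Real.norm_eq_abs]
    have : κ * A = ∫ t : ℝ, A * (κ * Real.exp (-2 * |t - τ|)) := by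
      rw [integral_const_mul, integral_const_mul, ee]
      ring
    rw [this]
    refine norm_integral_le_of_norm_le ((ie.const_mul κ).const_mul A) (Eventually.of_forall fun t => ?_)
    rw [norm_mul, Real.norm_eq_abs, Real.norm_eq_abs]
    have h6 := (asy_le hΨ (hz t)).1
    rw [hre] at h6
    exact mul_le_mul (hA t) h6 (abs_nonneg _) hA0
  rw [e1, Complex.add_re, e2, ← hN]
  rw [abs_le] at b1 b2 ⊢
  constructor <;> linarith [b1.1, b1.2, b2.1, b2.2]

/-- **the current against a finite family of neutral groups** -/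
theorem exists_lin_sum : ∃ C : ℝ, 1 ≤ C ∧ ∀ {s ε M b : ℝ} {e η η1 : ℝ → ℝ}, 0 ≤ s → ε ≤ 1 / 20 →
    Cur s ε M b e η → (∀ t, HasDerivAt η (η1 t) t) → 0 ≤ b →
    ∀ {δ : Type*} [Fintype δ] {B A : ℝ} {κ a φ τ : δ → ℝ} {Ψ : δ → ℂ → ℂ}, ε < B →
      (∀ d, Asy B (κ d) 0 (a d) (φ d) (τ d) (Ψ d)) →
      (∀ d (z : ℂ), |z.im| < B → DifferentiableAt ℂ (Ψ d) z) → (∀ t, |hd s η η1 t| ≤ A) →
      |-(∫ t, Bf s (iD η) (iD η1) t * ∑ d, Ψ d (zt (iD η) t)).re +
          2 * ∑ d, φ d * (s * P (τ d) * η (τ d))| ≤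
        (∑ d, κ d) * A + C * (∑ d, (|a d| + |φ d| + κ d)) * b * (M * ε) := by
  obtain ⟨C, hC, H⟩ := exists_lin
  refine ⟨C, hC, ?_⟩
  intro s ε M b e η η1 hs hε hcur h1 hb δ _ B A κ a φ τ Ψ hεB hΨ hdiff hA
  have h := fun d => H hs hε hcur h1 hb hεB (hΨ d) (hdiff d) hA
  have e1 : ∫ t, Bf s (iD η) (iD η1) t * ∑ d, Ψ d (zt (iD η) t) =
      ∑ d, ∫ t, Bf s (iD η) (iD η1) t * Ψ d (zt (iD η) t) := by
    simp_rw [Finset.mul_sum]
    exact integral_finsetSum _ fun d _ => (h d).1
  have e2 : -(∫ t, Bf s (iD η) (iD η1) t * ∑ d, Ψ d (zt (iD η) t)).re +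
      2 * ∑ d, φ d * (s * P (τ d) * η (τ d)) =
      ∑ d, (-(∫ t, Bf s (iD η) (iD η1) t * Ψ d (zt (iD η) t)).re +
        2 * φ d * (s * P (τ d) * η (τ d))) := by
    rw [e1, Complex.re_sum, Finset.sum_add_distrib, Finset.sum_neg_distrib, Finset.mul_sum]
    congr 1
    exact Finset.sum_congr rfl fun d _ => by ring
  rw [e2]
  refine (Finset.abs_sum_le_sum_abs _ _).trans ((Finset.sum_le_sum fun d _ => (h d).2).trans
    (le_of_eq ?_))
  rw [Finset.sum_add_distrib, ← Finset.sum_mul, ← Finset.sum_mul, ← Finset.sum_mul, ← Finset.mul_sum]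

end

end NUSea.H0
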