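import Pool.Agent.NUSea.H0.ShH0
import Pool.Agent.NUH0.CrNum

/-!
# Numbers of the crude bound for a configuration

`q = r + log m`, `Y ≥ (|h_i| - T')_+`, `T0 = T' + (1 + ε₂) Y + 2 log q`, `δ = q^{-2} e^{-ε₂ Y}`.
* `rm_tail`: the tail condition of `RegT`;
* `delta_log`: `δ² (1 + log (1 + T0)) ≤ 1`;
* `T0_cost`: `(7/3 + ε') T0 ≤ (7/3 + ε') T' + (5/2) Y + 6 log q`;
* `m2_le`: mass of the objects near the origin.
-/

set_option autoImplicit false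
set_option linter.unusedSectionVars false

open MeasureTheory Set Filter Topology
open scoped Real ENNReal

namespace NUSea.H0

open NUH0
open NUMF NUWC NUO NUEnW NUDispW

noncomputable section

variable [Sea]

variable {T' Y q ε₂ : ℝ}

/-- **tail of the sea and of the objects** -/
theorem rm_tail {r : ℕ} {h : Fin r → ℝ} {M k m s L : ℝ} {μ : ℝ → ℝ} (hM : 0 ≤ M)
    (hμ : ∀ t, |μ t| ≤ M * bmaj Finset.univ h (5 / 2) t) (hm : 1 ≤ m) (hL : L = Real.log m)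
    (hs0 : 0 ≤ s) (hs : s ≤ k * m) (hT : 3 / 8 * L ≤ T') (hh : ∀ i, |h i| ≤ T' + Y) (hY : 0 ≤ Y)
    (hε : 0 ≤ ε₂) (hq1 : 1 ≤ q) (hqr : (r : ℝ) ≤ q) (hqk : tC * k ≤ q) (hqM : 2 * M ≤ q) {t : ℝ}
    (ht : T0c T' Y q ε₂ ≤ |t|) :
    |s * P t + μ t| ≤ δc Y q ε₂ * Real.exp (-(|t| - T0c T' Y q ε₂)) := by
  have htC := tC_ge
  have hq0 : 0 < q := by linarith
  have hlq := Real.log_nonneg hq1
  have hm0 : 0 < m := by linarith
  set T0 := T0c T' Y q ε₂ with hT0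
  have hi0 : 0 < q⁻¹ := inv_pos.2 hq0
  have hi1 : q⁻¹ ≤ 1 := inv_le_one_of_one_le₀ hq1
  have hqi : q⁻¹ * q = 1 := inv_mul_cancel₀ hq0.ne'
  have hexp : ∀ n : ℕ, Real.exp (-(n * Real.log q)) = q⁻¹ ^ n := by
    intro n
    rw [← mul_neg, Real.exp_nat_mul, Real.exp_neg, Real.exp_log hq0]
  have hk : 0 ≤ k := by
    by_contra hc
    push Not at hc
    nlinarith
  -- the sea
  have h1 : |s * P t| ≤ 1 / 2 * (δc Y q ε₂ * Real.exp (-(|t| - T0))) := by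
    have h2 := sP_tail (s := s) ht
    rw [abs_of_nonneg hs0] at h2
    refine h2.trans ?_
    have h3 : Real.exp (-(8 / 3) * T0) ≤ m⁻¹ * (q⁻¹ ^ 3 * Real.exp (-(ε₂ * Y))) := by
      have e : m⁻¹ * (q⁻¹ ^ 3 * Real.exp (-(ε₂ * Y))) =
          Real.exp (-L + (-(((3 : ℕ) : ℝ) * Real.log q) + -(ε₂ * Y))) := by
        have e0 : Real.exp (-L) = m⁻¹ := by rw [hL, Real.exp_neg, Real.exp_log hm0]
        rw [Real.exp_add, Real.exp_add, hexp 3, e0]
      rw [e]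
      apply Real.exp_le_exp.2
      have h4 := mul_nonneg hε hY
      rw [hT0]
      unfold T0c
      push_cast
      nlinarith
    have h5 : tC / 2 * s * (m⁻¹ * (q⁻¹ ^ 3 * Real.exp (-(ε₂ * Y)))) ≤ 1 / 2 * δc Y q ε₂ := by
      have h6 : s * m⁻¹ ≤ k := by
        rw [← div_eq_mul_inv, div_le_iff₀ hm0]
        exact hs
      unfold δc
      have h7 : tC * k * q⁻¹ ≤ 1 := by
        rw [← div_eq_mul_inv, div_le_iff₀ hq0]
        linarith
      have he := (Real.exp_pos (-(ε₂ * Y))).le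
      calc tC / 2 * s * (m⁻¹ * (q⁻¹ ^ 3 * Real.exp (-(ε₂ * Y)))) =
          tC / 2 * (s * m⁻¹) * q⁻¹ * (q⁻¹ ^ 2 * Real.exp (-(ε₂ * Y))) := by ring
        _ ≤ tC / 2 * k * q⁻¹ * (q⁻¹ ^ 2 * Real.exp (-(ε₂ * Y))) := by gcongr
        _ = 1 / 2 * (tC * k * q⁻¹) * (q⁻¹ ^ 2 * Real.exp (-(ε₂ * Y))) := by ring
        _ ≤ 1 / 2 * 1 * (q⁻¹ ^ 2 * Real.exp (-(ε₂ * Y))) := by gcongr
        _ = _ := by ring
    calc tC / 2 * s * Real.exp (-(8 / 3) * T0) * Real.exp (-(|t| - T0)) ≤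
        tC / 2 * s * (m⁻¹ * (q⁻¹ ^ 3 * Real.exp (-(ε₂ * Y)))) * Real.exp (-(|t| - T0)) := by gcongr
      _ ≤ (1 / 2 * δc Y q ε₂) * Real.exp (-(|t| - T0)) := by gcongr
      _ = _ := by ring
  -- the objects
  have h2 : |μ t| ≤ 1 / 2 * (δc Y q ε₂ * Real.exp (-(|t| - T0))) := by
    refine (hμ t).trans ?_
    have h3 : bmaj Finset.univ h (5 / 2) t ≤ q * (q⁻¹ ^ 5 * Real.exp (-(ε₂ * Y)) *
        Real.exp (-(|t| - T0))) := by
      unfold bmaj
      calc ∑ i, Real.exp (-(5 / 2 * |t - h i|)) ≤ ∑ _i : Fin r, (q⁻¹ ^ 5 * Real.exp (-(ε₂ * Y)) *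
          Real.exp (-(|t| - T0))) := by
            refine Finset.sum_le_sum fun i _ => ?_
            rw [← hexp 5, ← Real.exp_add, ← Real.exp_add]
            apply Real.exp_le_exp.2
            have h4 := abs_sub_abs_le_abs_sub t (h i)
            have h5 := hh i
            have h6 := mul_nonneg hε hY
            have h7 : |t| - T0 + ε₂ * Y + 2 * Real.log q ≤ |t - h i| := by
              rw [hT0]
              unfold T0c
              linarith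
            have h8 : 0 ≤ |t| - T0 := by linarith
            push_cast
            linarith
        _ = r * (q⁻¹ ^ 5 * Real.exp (-(ε₂ * Y)) * Real.exp (-(|t| - T0))) := by
            rw [Finset.sum_const, Finset.card_univ, Fintype.card_fin, nsmul_eq_mul]
        _ ≤ _ := by gcongr
    have h4 : M * q⁻¹ ≤ 1 / 2 := by
      rw [← div_eq_mul_inv, div_le_iff₀ hq0]
      linarith
    unfold δc
    have he := (Real.exp_pos (-(ε₂ * Y))).le
    have h5 : q * q⁻¹ ^ 5 = q⁻¹ * q⁻¹ ^ 3 := by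
      calc q * q⁻¹ ^ 5 = (q⁻¹ * q) * q⁻¹ ^ 4 := by ring
        _ = q⁻¹ * q⁻¹ ^ 3 := by rw [hqi]; ring
    have h6 : q⁻¹ ^ 3 ≤ q⁻¹ ^ 2 := pow_le_pow_of_le_one hi0.le hi1 (by norm_num)
    calc M * bmaj Finset.univ h (5 / 2) t ≤ M * (q * (q⁻¹ ^ 5 * Real.exp (-(ε₂ * Y)) *
        Real.exp (-(|t| - T0)))) := by gcongr
      _ = (M * (q * q⁻¹ ^ 5)) * (Real.exp (-(ε₂ * Y)) * Real.exp (-(|t| - T0))) := by ring
      _ = ((M * q⁻¹) * q⁻¹ ^ 3) * (Real.exp (-(ε₂ * Y)) * Real.exp (-(|t| - T0))) := by rw [h5]; ring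
      _ ≤ (1 / 2 * q⁻¹ ^ 2) * (Real.exp (-(ε₂ * Y)) * Real.exp (-(|t| - T0))) := by gcongr
      _ = _ := by ring
  refine (abs_add_le _ _).trans ?_
  linarith

end

end NUSea.H0
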