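import Pool.Agent.NUSea.H0.Ker
import Pool.Agent.NUH0.KerN

/-!
# The kernel fields of `Hyp0` for two curves, general sea

`kern`: cut error and class of the kernels (`NUH0.kern_num`, the constants for large `m`, does not
depend on the sea).
-/

set_option autoImplicit false
set_option linter.unusedSectionVars false

open MeasureTheory Set Filter Topology
open scoped Real ENNReal

namespace NUSea.H0

open NUMF NUWC NUKer NUDi

noncomputable section

variable [Sea]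

theorem κ_kd {X : Dat} {η η1 : Bool → ℝ → ℝ} (hD : ∀ a, X.D a = iD (η a))
    (hD1 : ∀ a, X.D1 a = iD (η1 a)) (a d : Bool) :
    X.κ a d = NU42.kd (iD (η true)) (iD (η1 true)) (iD (η false)) (iD (η1 false)) a d := by
  cases a <;> cases d <;> simp [Dat.κ, NU42.kd, hD, hD1]

/-- **the kernels** of two small curves -/
theorem kern : ∃ K : ℝ, 1 ≤ K ∧ ∀ {X : Dat} {lam b : ℝ} {η η1 : Bool → ℝ → ℝ},
    (∀ a, X.D a = iD (η a)) → (∀ a, X.D1 a = iD (η1 a)) → (∀ a, NU42.Crv lam b (η a) (η1 a)) →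
    (K * lam ≤ 1 → ∀ (Rb : ℝ) (bb : ℝ → ℝ), b ≤ Rb → (∀ t, |t| ≤ Rb → bb t = 1) → (∀ t, 0 ≤ bb t) →
      (∀ t, bb t ≤ 1) → ∀ a d t t', |X.κ a d t t' - bb t * bb t' * X.κ a d t t'| ≤
        K * lam * Real.exp (-2 * (Rb - b))) ∧
    (∀ R, 1 ≤ R → (∀ a, NUKer.Disp R lam (iD (η a)) (iD (η1 a))) → K * R ^ 7 * lam ≤ 1 →
      ∀ a d, KC R (K * R ^ 7 * lam) (fun t t' => ((X.κ a d t t' : ℝ) : ℂ))) := by
  obtain ⟨K1, hK1, H1⟩ := NU42.exists_line
  obtain ⟨K2, hK2, H2⟩ := exists_kw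
  obtain ⟨K3, hK3, H3⟩ := exists_kg
  refine ⟨K1 + K2 + K3, by linarith, ?_⟩
  intro X lam b η η1 hD hD1 hC
  have hl : 0 ≤ lam := (hC true).lam0
  have e := κ_kd hD hD1
  constructor
  · intro hK Rb bb hb h1 h2 h3 a d t t'
    have hK' : K1 * lam ≤ 1 := le_trans (by nlinarith) hK
    obtain ⟨-, -, -, -, -, h⟩ := H1 lam b _ _ _ _ (hC true) (hC false) hK'
    rw [e]
    refine (h Rb bb hb h1 h2 h3 a d t t').trans ?_
    have := (Real.exp_pos (-2 * (Rb - b))).le
    gcongr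
    linarith
  · intro R hR hd hK a d
    have hR7 : 0 ≤ R ^ 7 * lam := by positivity
    have hR6 : R ^ 6 * lam ≤ R ^ 7 * lam := by
      have : R ^ 6 ≤ R ^ 7 := pow_le_pow_right₀ hR (by norm_num)
      gcongr
    have k2 : K2 * R ^ 7 * lam ≤ (K1 + K2 + K3) * R ^ 7 * lam := by
      have : 0 ≤ R ^ 7 := by positivity
      gcongr
      linarith
    have k3 : K3 * R ^ 6 * lam ≤ (K1 + K2 + K3) * R ^ 7 * lam := by
      calc K3 * R ^ 6 * lam = K3 * (R ^ 6 * lam) := by ring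
        _ ≤ (K1 + K2 + K3) * (R ^ 7 * lam) := by gcongr; linarith
        _ = _ := by ring
    have e1 : ∀ a, X.κ a a = kw (iD (η a)) (iD (η1 a)) := by
      intro a
      rw [kappa_same, hD, hD1]
    rcases eq_or_ne a d with rfl | had
    · rw [e1]
      exact ((H2 R hR lam _ _ (hd a) (k2.trans hK)).2).mono k2
    · rw [kappa_diff had, hD, hD]
      exact ((H3 R hR lam _ _ _ _ (hd a) (hd d) (k3.trans hK)).2).mono k3

end

end NUSea.H0
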