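import Pool.Agent.NUSea.H0.H0fin
import Pool.Agent.NUSea.H0.KerN
import Pool.Agent.NUSea.H0.CrNum
import Pool.Agent.NUSea.Cur
import Pool.Agent.NUH0.Inst

/-!
# The instance of a configuration

`Inst X p n k A κ m h b η η1`: what is needed of the data of a configuration (`h` heights of the
objects); `Inst.hyp0`, `Inst.hyp1`: the hypotheses of `H0`, `H0fin`; `crude`: **the crude bound of the
gas of a configuration**.
-/

set_option autoImplicit false
set_option linter.unusedSectionVars false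

open MeasureTheory Set Filter Topology
open scoped Real ENNReal

namespace NUSea.H0

open NUH0
open NUMF NUWC NUKer NUDi NUO NUEnW NUDispW NUMFC

noncomputable section

variable [Sea]

/-- the data of a configuration with heights `h` -/
structure Inst (X : Dat) (p n : ℕ) (k A κ : ℝ) (m : ℕ) {r : ℕ} (h : Fin r → ℝ) (T' b : ℝ)
    (η η1 : Bool → ℝ → ℝ) : Prop where
  pk : (p : ℝ) ≤ k * m
  nk : (n : ℝ) ≤ k * m
  sk : X.s ≤ k * m
  geo : ∃ Cκ, Geo X Cκ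
  fld : Fld X p n
  reg : Reg X
  φd : ∀ a t, HasDerivAt (X.φ a) (X.φ' a t) t
  φc' : ∀ a, Continuous (X.φ' a)
  φq : ∀ a t, |X.φ a t| ≤ qc A r m ^ 2
  μM : ∀ a t, |X.μ a t| ≤ A * (bmaj Finset.univ h (5 / 2) t + plt T' t)
  dD : ∀ a, X.D a = iD (η a)
  dD1 : ∀ a, X.D1 a = iD (η1 a)
  hd : ∀ a t, HasDerivAt (η a) (η1 a t) t
  cur : ∀ a, ∃ ε M e, Cur X.s ε M b e (η a) ∧ ε ≤ (m : ℝ) ^ (-κ)

theorem _root_.NUSea.Cur.crv {s ε M b lam : ℝ} {e η η1 : ℝ → ℝ} (h : Cur s ε M b e η)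
    (h1 : ∀ t, HasDerivAt η (η1 t) t) (hl : ε ≤ lam) : NU42.Crv lam b η η1 := by
  have a1 := h.oc1 h1
  have hn : ∀ (f : ℝ → ℝ) (t : ℝ), ‖iD f t‖ = |f t| := fun f t => by
    simp [iD, Complex.norm_real]
  refine ⟨h1, ?_, fun t => ?_, fun t => ?_, fun t ht => ?_⟩
  · have h2 := a1.cont
    have h3 : η1 = fun t => (iD η1 t).im := funext fun t => by simp [iD]
    rw [h3]
    exact Complex.continuous_im.comp h2
  · rw [← hn]
    exact ((h.oc.le t).trans (h.le t)).trans hl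
  · rw [← hn]
    exact ((a1.le t).trans (h.le t)).trans hl
  · have h2 := h.oc.le t
    rw [hn, h.supp t ht] at h2
    exact abs_nonpos_iff.1 h2

variable {X : Dat} {p n : ℕ} {k A κ : ℝ} {m r : ℕ} {h : Fin r → ℝ} {T' b : ℝ} {η η1 : Bool → ℝ → ℝ}

/-- tails of the sea, of the objects and of the plateau -/
theorem rm_tail3 {Y q ε₂ : ℝ} {k M m s L : ℝ} {μ : ℝ → ℝ} (hM : 0 ≤ M) (hk : 0 ≤ k)
    (hμ : ∀ t, |μ t| ≤ M * (bmaj Finset.univ h (5 / 2) t + plt T' t)) (hm : 1 ≤ m)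
    (hL : L = Real.log m) (hs0 : 0 ≤ s) (hs : s ≤ k * m) (hT : 3 / 8 * L ≤ T')
    (hh : ∀ i, |h i| ≤ T' + Y) (hY : 0 ≤ Y) (hε : 0 ≤ ε₂) (hq1 : 1 ≤ q) (hqr : (r : ℝ) ≤ q)
    (hqk : 3 * (tC * k) ≤ q) (hqM : 6 * M ≤ q) {t : ℝ} (ht : T0c T' Y q ε₂ ≤ |t|) :
    |s * P t + μ t| ≤ δc Y q ε₂ * Real.exp (-(|t| - T0c T' Y q ε₂)) := by
  have hq0 : 0 < q := by linarith
  obtain ⟨e, he⟩ : ∃ e, e = δc Y q ε₂ * Real.exp (-(|t| - T0c T' Y q ε₂)) := ⟨_, rfl⟩
  have a1 : |3 * s * P t + (0 : ℝ)| ≤ e := by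
    rw [he]
    refine rm_tail (h := h) (M := 0) (k := 3 * k) (m := m) (L := L) (μ := fun _ => 0) le_rfl
      (fun t => ?_) hm hL (by linarith) (by nlinarith) hT hh hY hε hq1 hqr (by linarith)
      (by linarith) ht
    simp
  have a2 : |(0 : ℝ) * P t + 3 * M * bmaj Finset.univ h (5 / 2) t| ≤ e := by
    rw [he]
    refine rm_tail (h := h) (M := 3 * M) (k := k) (m := m) (L := L)
      (μ := fun t => 3 * M * bmaj Finset.univ h (5 / 2) t) (by linarith)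
      (fun t => ?_) hm hL le_rfl (by positivity) hT hh hY hε hq1 hqr (by linarith)
      (by linarith) ht
    rw [abs_of_nonneg]
    have : 0 ≤ bmaj Finset.univ h (5 / 2) t := by unfold bmaj; positivity
    positivity
  have a3 : 3 * M * plt T' t ≤ e := by
    have hlq := Real.log_nonneg hq1
    have h1 : plt T' t ≤ q⁻¹ ^ 5 * Real.exp (-(ε₂ * Y)) * Real.exp (-(|t| - T0c T' Y q ε₂)) := by
      have e1 : q⁻¹ ^ 5 = Real.exp (-(((5 : ℕ) : ℝ) * Real.log q)) := by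
        rw [← mul_neg, Real.exp_nat_mul, Real.exp_neg, Real.exp_log hq0]
      rw [e1, ← Real.exp_add, ← Real.exp_add]
      unfold plt
      apply Real.exp_le_exp.2
      have h2 := le_max_left (|t| - T') 0
      have h3 : (1 + ε₂) * Y + 2 * Real.log q = T0c T' Y q ε₂ - T' := by
        unfold T0c
        ring
      have h4 := mul_nonneg hε hY
      push_cast
      nlinarith
    have hi0 : 0 < q⁻¹ := inv_pos.2 hq0
    have hi1 : q⁻¹ ≤ 1 := inv_le_one_of_one_le₀ hq1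
    have h5 : 3 * M * q⁻¹ ≤ 1 := by
      rw [← div_eq_mul_inv, div_le_one hq0]
      linarith
    have h6 : q⁻¹ ^ 4 ≤ q⁻¹ ^ 2 := pow_le_pow_of_le_one hi0.le hi1 (by norm_num)
    rw [he]
    unfold δc
    have e2 := (Real.exp_pos (-(ε₂ * Y))).le
    have e3 := (Real.exp_pos (-(|t| - T0c T' Y q ε₂))).le
    calc 3 * M * plt T' t ≤ 3 * M * (q⁻¹ ^ 5 * Real.exp (-(ε₂ * Y)) *
          Real.exp (-(|t| - T0c T' Y q ε₂))) := by gcongr
      _ = (3 * M * q⁻¹) * q⁻¹ ^ 4 * (Real.exp (-(ε₂ * Y)) *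
          Real.exp (-(|t| - T0c T' Y q ε₂))) := by ring
      _ ≤ 1 * q⁻¹ ^ 2 * (Real.exp (-(ε₂ * Y)) * Real.exp (-(|t| - T0c T' Y q ε₂))) := by gcongr
      _ = _ := by ring
  rw [← he]
  have b1 : 3 * |s * P t| ≤ e := by
    have e1 : |3 * s * P t + (0 : ℝ)| = 3 * |s * P t| := by
      rw [add_zero, mul_assoc, abs_mul, abs_of_pos (by norm_num : (0 : ℝ) < 3)]
    rwa [e1] at a1
  have b2 : 3 * (M * bmaj Finset.univ h (5 / 2) t) ≤ e := by
    have := (le_abs_self _).trans a2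
    linarith
  have b3 := hμ t
  have b4 := abs_add_le (s * P t) (μ t)
  linarith

/-- regularity with tails -/
theorem Inst.regT (hI : Inst X p n k A κ m h T' b η η1) (hA : 1 ≤ A) (hm : 1 ≤ m)
    (hL : 200 + 3 * (tC * k) + 6 * A ≤ Real.log m) (hk : 0 ≤ k) {Y : ℝ}
    (hT : 3 / 8 * Real.log m ≤ T') (hT' : T' ≤ Real.log m) (hY : 0 ≤ Y) (hh : ∀ i, |h i| ≤ T' + Y) :
    RegT X (T0c T' Y (qc A r m) (1 / 100)) (δc Y (qc A r m) (1 / 100)) := by
  have htk : 0 ≤ tC * k := mul_nonneg (by linarith [tC_ge]) hk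
  have hq := qc_ge (r := r) (m := m) hA hL (by linarith)
  have hr : (0 : ℝ) ≤ r := Nat.cast_nonneg r
  have hm1 : (1 : ℝ) ≤ m := by exact_mod_cast hm
  have hq0 : 0 < qc A r m := by linarith
  have hqL : T' ≤ qc A r m := by
    unfold qc
    nlinarith
  obtain ⟨Cκ, hG⟩ := hI.geo
  exact
    { hI.reg with
      tail := fun a t ht => by
        unfold rm Dat.ρ
        exact rm_tail3 (h := h) (M := A) (k := k) (m := m) (L := Real.log m) (by linarith) hk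
          (hI.μM a) hm1 rfl hG.s0 hI.sk hT hh hY (by norm_num) (by linarith) (by linarith)
          (by linarith) (by linarith) ht
      φd := hI.φd
      φc' := hI.φc'
      δφ := fun a t => by
        have h1 := hI.φq a t
        have h2 := (δc_pos (Y := Y) (ε₂ := 1 / 100) hq0).le
        have h3 : δc Y (qc A r m) (1 / 100) ≤ (qc A r m)⁻¹ ^ 2 := by
          unfold δc
          have : Real.exp (-(1 / 100 * Y)) ≤ 1 := Real.exp_le_one_iff.2 (by linarith)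
          have h4 : 0 ≤ (qc A r m)⁻¹ ^ 2 := by positivity
          nlinarith
        calc δc Y (qc A r m) (1 / 100) * |X.φ a t| ≤ (qc A r m)⁻¹ ^ 2 * qc A r m ^ 2 := by gcongr
          _ = 1 := by
            rw [← mul_pow, inv_mul_cancel₀ hq0.ne', one_pow]
      δ0 := (δc_pos hq0).le
      δ1 := delta_log hY (by linarith) (by norm_num) (by norm_num) (by linarith) hqL (by linarith)
      T0 := by
        have := T0c_ge (T' := T') (ε₂ := 1 / 100) hY (by linarith : 1 ≤ qc A r m) (by norm_num)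
        linarith }

/-- **the numbers of an instance**: cut error `ε`, constant `c'`, mass `m2` -/
structure Nums (X : Dat) (p n : ℕ) {r : ℕ} (h : Fin r → ℝ) (A x R ε c' m2 : ℝ) : Prop where
  ε0 : 0 ≤ ε
  c0 : 0 < c'
  e1 : ε / 2 * ((p : ℝ) + n + 2 * X.s) ^ 2 ≤ 1
  cm : 176 * c' * R * m2 ^ 2 ≤ x * (win Finset.univ h + 1)
  mw : m2 ^ 2 ≤ 4 * R * (A ^ 2 * Kc (5 / 2) * win Finset.univ h) + 8 * A ^ 2 * R ^ 2
  cq : 8 * c' * (22 * R) ≤ 1
  mm : ∀ a, ∫ t in {t | |t| ≤ R}, |X.μ a t| ≤ m2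

/-- kernels and numbers -/
theorem exists_nums : ∀ {k A κ x : ℝ}, 0 ≤ k → 0 ≤ A → 0 < κ → 0 < x → ∀ {N c : ℝ},
    1 ≤ N → ∀ j : ℕ, ∃ m0 : ℕ, 3 ≤ m0 ∧ ∀ m ≥ m0, ∀ {X : Dat} {p n r : ℕ} {h : Fin r → ℝ}
      {T' b : ℝ} {η η1 : Bool → ℝ → ℝ}, Inst X p n k A κ m h T' b η η1 → ∀ {R1 : ℝ}, 0 ≤ b →
      Real.log m + b ≤ R1 → R1 ≤ c * Real.log m ^ j →
      ∃ ε c' m2 : ℝ, Nums X p n h A x (R1 + N) ε c' m2 ∧
        (∀ bb : ℝ → ℝ, (∀ t, |t| ≤ R1 → bb t = 1) → (∀ t, 0 ≤ bb t) → (∀ t, bb t ≤ 1) →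
          ∀ a d t t', |X.κ a d t t' - bb t * bb t' * X.κ a d t t'| ≤ ε) ∧
        (∃ Λ1, 0 ≤ Λ1 ∧ 4 * Λ1 ≤ c' ∧ ∀ a d, KC (R1 + N) Λ1
          (fun t t' => ((X.κ a d t t' : ℝ) : ℂ))) := by
  obtain ⟨K, hK, HK⟩ := kern
  intro k A κ x hk hA hκ hx N c hN j
  have hKc := (Kc_pos (by norm_num : (0 : ℝ) < 5 / 2)).le
  obtain ⟨A', hA'⟩ : ∃ A' : ℝ, A' = 2 * (A ^ 2 * Kc (5 / 2)) + 8 * A ^ 2 := ⟨_, rfl⟩
  obtain ⟨m0, hm0, HM⟩ := kern_numj (K := K) (k := k) (κ0 := κ) (A := A') (x := x)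
    (by linarith) hκ (by rw [hA']; positivity) hx (N := N) (c := c) (by linarith) j
  refine ⟨m0, hm0, ?_⟩
  intro m hm X p n r h T' b η η1 hI R1 hb hR hRj
  have hm3 : (3 : ℝ) ≤ m := by exact_mod_cast hm0.trans hm
  have hmp : (0 : ℝ) < m := by linarith
  have hL0 : 0 ≤ Real.log m := Real.log_nonneg (by linarith)
  have hR0 : 0 ≤ R1 := by linarith
  obtain ⟨g1, g2, g3, g4, g5⟩ := HM m hm hR hRj hR0
  obtain ⟨lam, hlam⟩ : ∃ lam : ℝ, lam = (m : ℝ) ^ (-κ) := ⟨_, rfl⟩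
  rw [← hlam] at g1 g2 g3 g4 g5
  have hlam0 : 0 < lam := by rw [hlam]; exact Real.rpow_pos_of_pos hmp _
  have hC : ∀ a, NU42.Crv lam b (η a) (η1 a) := fun a => by
    obtain ⟨ε, M, e, hc, hε⟩ := hI.cur a
    exact hc.crv (hI.hd a) (hε.trans hlam.symm.le)
  have hD : ∀ a, NUKer.Disp (R1 + N) lam (iD (η a)) (iD (η1 a)) := fun a => by
    obtain ⟨ε, M, e, hc, hε⟩ := hI.cur a
    have h1 : Cur X.s lam M b e (η a) := ⟨hc.oc, fun t => (hc.le t).trans (hε.trans hlam.symm.le),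
      hc.mass, hc.supp⟩
    exact h1.disp (hI.hd a) _
  obtain ⟨H1, H2⟩ := HK hI.dD hI.dD1 hC
  have hRN1 : 1 ≤ R1 + N := by linarith
  have hKl : K * lam ≤ 1 := by
    refine le_trans ?_ g1
    have : 1 ≤ (R1 + N) ^ 7 := one_le_pow₀ hRN1
    have : K * 1 * lam ≤ K * (R1 + N) ^ 7 * lam := by gcongr
    linarith
  have hs0 : 0 ≤ X.s := by
    obtain ⟨Cκ, hG⟩ := hI.geo
    exact hG.s0
  have hw0 : 0 ≤ win Finset.univ h := win_nonneg _ _
  obtain ⟨S, hS⟩ : ∃ S : ℝ, S = √(2 * (R1 + N) * (A ^ 2 * Kc (5 / 2) * win Finset.univ h)) := ⟨_, rfl⟩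
  have hS0 : 0 ≤ S := by rw [hS]; exact Real.sqrt_nonneg _
  have hsq : S ^ 2 = 2 * (R1 + N) * (A ^ 2 * Kc (5 / 2) * win Finset.univ h) := by
    rw [hS]
    exact Real.sq_sqrt (by positivity)
  have hm2 : (S + 2 * A * (R1 + N)) ^ 2 ≤ 4 * (R1 + N) * (A ^ 2 * Kc (5 / 2) * win Finset.univ h) +
      8 * A ^ 2 * (R1 + N) ^ 2 := by
    have h1 : (S + 2 * A * (R1 + N)) ^ 2 ≤ 2 * S ^ 2 + 2 * (2 * A * (R1 + N)) ^ 2 := by
      nlinarith [sq_nonneg (S - 2 * A * (R1 + N))]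
    rw [hsq] at h1
    linarith
  refine ⟨K * lam * Real.exp (-2 * (R1 - b)), 4 * K * (R1 + N) ^ 7 * lam,
    S + 2 * A * (R1 + N), ?_, ?_, ?_⟩
  · refine ⟨by positivity, by positivity, ?_, ?_, hm2, g2, fun a => ?_⟩
    · exact g4 p n X.s (Nat.cast_nonneg _) (Nat.cast_nonneg _) hs0 hI.pk hI.nk hI.sk
    · have h3 := g3 _ hw0
      have h4 : 0 ≤ 176 * (4 * K * (R1 + N) ^ 7 * lam) * (R1 + N) := by positivity
      have h5 : (S + 2 * A * (R1 + N)) ^ 2 ≤ 2 * (R1 + N) * (A' * win Finset.univ h) +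
          A' * (R1 + N) ^ 2 := by
        refine hm2.trans ?_
        have a1 : 4 * (R1 + N) * (A ^ 2 * Kc (5 / 2) * win Finset.univ h) ≤
            2 * (R1 + N) * (A' * win Finset.univ h) := by
          have : 0 ≤ (R1 + N) * (A ^ 2 * win Finset.univ h) := by positivity
          rw [hA']
          nlinarith
        have a2 : 8 * A ^ 2 * (R1 + N) ^ 2 ≤ A' * (R1 + N) ^ 2 := by
          have : 0 ≤ A ^ 2 * Kc (5 / 2) := by positivity
          rw [hA']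
          gcongr
          linarith
        linarith
      calc 176 * (4 * K * (R1 + N) ^ 7 * lam) * (R1 + N) * (S + 2 * A * (R1 + N)) ^ 2 ≤
          176 * (4 * K * (R1 + N) ^ 7 * lam) * (R1 + N) * (2 * (R1 + N) * (A' * win Finset.univ h) +
          A' * (R1 + N) ^ 2) := by gcongr
        _ ≤ x * (win Finset.univ h + 1) := by
          rw [mul_add]
          linarith
    · rw [hS]
      exact m2_le3 hA (by linarith) (hI.reg.μi a) (hI.μM a)
  · intro bb h1 h2 h3 a d t t'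
    exact H1 hKl R1 bb (by linarith) h1 h2 h3 a d t t'
  · refine ⟨K * (R1 + N) ^ 7 * lam, by positivity, by linarith, ?_⟩
    exact H2 (R1 + N) hRN1 hD g1

/-- **the crude bound of the gas of a configuration** -/
theorem crude {k A κ ε' : ℝ} (hk : 0 ≤ k) (hA : 1 ≤ A) (hκ : 0 < κ) (hε' : 0 < ε')
    (hε'1 : ε' ≤ 1 / 200) : ∃ C : ℝ, 0 ≤ C ∧ ∀ {x : ℝ}, 0 < x → ∃ m0 : ℕ, ∀ m ≥ m0,
    ∀ {X : Dat} {p n r : ℕ} {h : Fin r → ℝ} {T' b : ℝ} {η η1 : Bool → ℝ → ℝ},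
    Inst X p n k A κ m h T' b η η1 → 0 ≤ b → b ≤ Real.log m →
    ∀ {aX aY cf B : ℝ → ℝ} {D q : ℝ}, Shl X aX aY cf B D q → 7 / 3 + 2 * ε' < q →
    ∀ {Y : ℝ}, 3 / 8 * Real.log m ≤ T' → T' ≤ Real.log m → 0 ≤ Y → (∀ i, |h i| ≤ T' + Y) →
    ∀ {N0 e1 : ℝ}, C * e1 ≤ ε' → (∀ T, T0i T' Y A r m ≤ T → NT X T ≤ N0 + e1 * T) →
    ∫⁻ y, ENNReal.ofReal (W0 X p n aX aY cf y) ≤ ENNReal.ofReal ((p.factorial : ℝ) * n.factorial *
      Real.exp (MFs X.s p n + X.En + ((7 / 3 + 2 * ε') * T' + 12 / 5 * Y + 6 * r + C * (1 + N0) +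
        x * (win Finset.univ h + 1 + Real.log m) + 1)) *
        (1 + shF D q (7 / 3 + 2 * ε') (T0i T' Y A r m))) := by
  obtain ⟨C, hC0, hC⟩ := H0 hε' k
  have htk : 0 ≤ tC * k := mul_nonneg (by linarith [tC_ge]) hk
  obtain ⟨N, hN1, hN⟩ := exists_cut1
  refine ⟨C, hC0, ?_⟩
  intro x hx
  obtain ⟨m1, hm1, HM⟩ := exists_nums (k := k) (A := A) (κ := κ) (x := x) hk (by linarith) hκ hx
    (N := N) (c := 2) hN1 1
  obtain ⟨m2, HT⟩ := T0i_cost (x := x) (ε' := 2 * ε') hx A hA (by linarith)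
  obtain ⟨m3, hm3⟩ := (Real.tendsto_log_atTop.comp tendsto_natCast_atTop_atTop).eventually
    (eventually_ge_atTop (200 + 3 * (tC * k) + 6 * A)) |>.exists_forall_of_atTop
  refine ⟨max m1 (max m2 m3), ?_⟩
  intro m hm X p n r h T' b η η1 hI hb0 hb aX aY cf B D q hS hq Y hT1 hT2 hY hh N0 e1 he1 hNT
  have hmm1 : m1 ≤ m := (le_max_left _ _).trans hm
  have hmm2 : m2 ≤ m := ((le_max_left _ _).trans (le_max_right _ _)).trans hm
  have hmm3 : m3 ≤ m := ((le_max_right _ _).trans (le_max_right _ _)).trans hm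
  have hm3' : 3 ≤ m := hm1.trans hmm1
  have hmr : (3 : ℝ) ≤ m := by exact_mod_cast hm3'
  have hL := hm3 m hmm3
  simp only [Function.comp] at hL
  have hLp : 0 < Real.log m := by linarith
  obtain ⟨ε, c', mm, hn, hker, hkc⟩ := HM m hmm1 hI (R1 := 2 * Real.log m) hb0 (by linarith)
    (by rw [pow_one])
  obtain ⟨hcut, hb0', hb1', hb2'⟩ := hN (2 * Real.log m) (by linarith)
  have hreg := hI.regT hA (by omega) hL hk hT1 hT2 hY hh
  have hT0 : T' + Y ≤ T0i T' Y A r m := T0i_ge hA hLp.le hY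
  have hT0p : 0 < T0i T' Y A r m := by linarith
  have hH : Hyp0 X p n k m (T0i T' Y A r m) (2 * Real.log m + N) ε c' mm (cN N (2 * Real.log m))
      (cN1 N (2 * Real.log m)) :=
    { m1 := by linarith
      pk := hI.pk
      nk := hI.nk
      sk := hI.sk
      mT := by linarith
      T0p := hT0p
      geo := hI.geo
      fld := hI.fld
      reg := ⟨_, hreg⟩
      cut := hcut
      ker := hker _ hb2' hb0' hb1'
      kc := hkc
      c0 := hn.c0
      cq := hn.cq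
      m2 := hn.mm }
  have hE := (hC hH hS (E0 := MFs X.s p n + X.En + (7 / 3 + 2 * ε') * T0i T' Y A r m +
      (C * (1 + N0) + x * (win Finset.univ h + 1) + 1)) (g := 7 / 3 + 2 * ε') (by linarith) hq (fun T hT => by
        have h1 := Ex_le (X := X) (p := p) (n := n) (ε' := ε') (C := C) (c' := c')
          (R := 2 * Real.log m + N) (m2 := mm) (ε := ε) (T0 := T0i T' Y A r m) (T := T)
          (N0 := N0 + e1 * T0i T' Y A r m) (e1 := e1) hC0 (hT0p.le.trans hT) he1 hT (by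
            have := hNT T hT
            linarith)
        have h2 := hn.e1
        have h3 := hn.cm
        have h4 : C * (e1 * T0i T' Y A r m) ≤ ε' * T0i T' Y A r m := by
          rw [← mul_assoc]
          gcongr
        linarith)).1 grid0 ∅ 0
  simp only [Finset.sum_empty, mul_zero, Real.exp_zero, ENNReal.ofReal_one, mul_one] at hE
  refine hE.trans (ENNReal.ofReal_le_ofReal ?_)
  have h5 := HT m hmm2 r (T' := T') hY
  have hsh := shF_nonneg (T0 := T0i T' Y A r m) hS.D0 hq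
  have h6 : MFs X.s p n + X.En + (7 / 3 + 2 * ε') * T0i T' Y A r m +
      (C * (1 + N0) + x * (win Finset.univ h + 1) + 1) ≤
      MFs X.s p n + X.En + ((7 / 3 + 2 * ε') * T' + 12 / 5 * Y + 6 * r + C * (1 + N0) +
        x * (win Finset.univ h + 1 + Real.log m) + 1) := by linarith
  gcongr

/-- **the hypotheses of the sharp bound** -/
theorem hyp1 {k A κ : ℝ} (hk : 0 ≤ k) (hA : 1 ≤ A) (hκ : 0 < κ) {x N c : ℝ} (hx : 0 < x) (hN : 1 ≤ N)
    (j : ℕ) : ∃ m0 : ℕ, ∀ m ≥ m0,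
    ∀ {X : Dat} {p n r : ℕ} {h : Fin r → ℝ} {T' b : ℝ} {η η1 : Bool → ℝ → ℝ},
    Inst X p n k A κ m h T' b η η1 → 0 ≤ b → ∀ {R1 : ℝ}, Real.log m + b ≤ R1 → R1 ≤ c * Real.log m ^ j →
    ∀ {Y : ℝ}, 3 / 8 * Real.log m ≤ T' → T' ≤ Real.log m → 0 ≤ Y → (∀ i, |h i| ≤ T' + Y) →
    T0i T' Y A r m ≤ R1 → ∃ ε c' m2 : ℝ, Nums X p n h A x (R1 + N) ε c' m2 ∧
      Hyp1 X p n k m (T0i T' Y A r m) R1 N ε c' m2 := by
  obtain ⟨N', hN1, hN'⟩ := exists_cut1
  have htk : 0 ≤ tC * k := mul_nonneg (by linarith [tC_ge]) hk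
  obtain ⟨m1, hm1, HM⟩ := exists_nums (k := k) (A := A) (κ := κ) (x := x) hk (by linarith) hκ hx
    (N := N) (c := c) hN j
  obtain ⟨m3, hm3⟩ := (Real.tendsto_log_atTop.comp tendsto_natCast_atTop_atTop).eventually
    (eventually_ge_atTop (200 + 3 * (tC * k) + 6 * A)) |>.exists_forall_of_atTop
  refine ⟨max m1 m3, ?_⟩
  intro m hm X p n r h T' b η η1 hI hb0 R1 hR1 hR2 Y hT1 hT2 hY hh hT0R
  have hmm1 : m1 ≤ m := (le_max_left _ _).trans hm
  have hmm3 : m3 ≤ m := (le_max_right _ _).trans hm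
  have hm3' : 3 ≤ m := hm1.trans hmm1
  have hmr : (3 : ℝ) ≤ m := by exact_mod_cast hm3'
  have hL := hm3 m hmm3
  simp only [Function.comp] at hL
  have hLp : 0 < Real.log m := by linarith
  obtain ⟨ε, c', mm, hn, hker, hkc⟩ := HM m hmm1 hI (R1 := R1) hb0 hR1 hR2
  have hreg := hI.regT hA (by omega) hL hk hT1 hT2 hY hh
  have hT0 : T' + Y ≤ T0i T' Y A r m := T0i_ge hA hLp.le hY
  have hT0p : 0 < T0i T' Y A r m := by linarith
  refine ⟨ε, c', mm, hn, ?_⟩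
  exact
    { m1 := by linarith
      pk := hI.pk
      nk := hI.nk
      sk := hI.sk
      mT := by linarith
      T0p := hT0p
      T0R := hT0R
      geo := hI.geo
      fld := hI.fld
      reg := ⟨_, hreg⟩
      ε0 := hn.ε0
      ker := fun a d t t' ht => by
        -- a cut equal to `1` on `[-R1, R1]` and `0` at `t` or `t'`
        classical
        let bb : ℝ → ℝ := fun u => if |u| ≤ R1 then 1 else 0
        have h1 := hker bb (fun u hu => if_pos hu) (fun u => by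
          show 0 ≤ (if |u| ≤ R1 then (1 : ℝ) else 0)
          split_ifs <;> norm_num) (fun u => by
          show (if |u| ≤ R1 then (1 : ℝ) else 0) ≤ 1
          split_ifs <;> norm_num) a d t t'
        have h2 : bb t * bb t' = 0 := by
          rcases ht with ht | ht
          · have : bb t = 0 := if_neg (not_le.2 ht)
            rw [this, zero_mul]
          · have : bb t' = 0 := if_neg (not_le.2 ht)
            rw [this, mul_zero]
        rwa [h2, zero_mul, sub_zero] at h1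
      kc := hkc
      c0 := hn.c0
      cq := hn.cq
      m2 := hn.mm }

end

end NUSea.H0
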