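import Pool.Agent.NUC43.CfgS
import Pool.Agent.NUSea.SEval

/-!
# The constant of the action for a configuration of objects and spectators, general sea

Copy of `NUC43/CfgS` for a general sea, with an additional analytic potential `A` (spectators):

`gas.S = ∑_i (s mfo - 2 π wK s P η) + ∫ s P Re Ψ + bil h' h' - Re ∫ B Ψ(ζ) + small`,
`Ψ = A true + A false`.
-/

set_option autoImplicit false
set_option linter.unusedSectionVars false

open MeasureTheory Set Filter Topology Complex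

namespace NUSea.H0

noncomputable section

open NUO (Kind Xo kd ht Par PG Off offO fq fg FO fO wnu wK cons potN lpL)
open NUMF (lq lqg)
open NUAct (Ext)

variable [Sea]

variable {δ : ℝ} {Q : Par} {r : ℕ}

lemma list_int (L : List (ℝ × ℝ)) :
    Integrable (fun t => P t * (L.map fun p => lq p.1 (p.2 - t) + lqg p.1 (p.2 - t)).sum) ∧
    ∫ t, P t * (L.map fun p => lq p.1 (p.2 - t) + lqg p.1 (p.2 - t)).sum =
      (L.map fun p => O.clo p.1 p.2).sum := by
  induction L with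
  | nil => simp
  | cons a L ih =>
    obtain ⟨i1, e1⟩ := ih
    have j1 := O.int_lq a.1 a.2
    have j2 := O.int_lqg a.1 a.2
    have j4 : Integrable fun t => P t * lq a.1 (a.2 - t) + P t * lqg a.1 (a.2 - t) := j1.add j2
    have j3 := j4.add i1
    have e : ∀ t, P t * ((a :: L).map fun p => lq p.1 (p.2 - t) + lqg p.1 (p.2 - t)).sum =
        (P t * lq a.1 (a.2 - t) + P t * lqg a.1 (a.2 - t)) +
          P t * (L.map fun p => lq p.1 (p.2 - t) + lqg p.1 (p.2 - t)).sum := by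
      intro t
      rw [List.map_cons, List.sum_cons]
      ring
    simp_rw [e]
    refine ⟨j3, ?_⟩
    rw [integral_add j4 i1, integral_add j1 j2, e1, List.map_cons, List.sum_cons]
    rfl

/-- **the interaction with the clouds, over the quanta** -/
theorem mfo_eq (h : PG δ Q) (O' : Fin r → Xo) (i : Fin r) :
    ∫ t, P t * lpL (cons Q O' i) (NUP1.vl NUP1.l t) = ((offO Q O' i).map fun p => O.clo p.1 p.2).sum := by
  simp_rw [NUC43.lpL_eq h]
  exact (list_int _).2

/-- **The constant of the action of a configuration.** -/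
theorem S_cfg (hδ : 0 < δ) (hδ1 : δ ≤ 2 / 7) : ∃ C : ℝ, 1 ≤ C ∧
    ∀ (s ε M b K : ℝ) (e η η1 : ℝ → ℝ) (Q : Par) (r : ℕ) (O' : Fin r → Xo) (A : Bool → ℂ → ℂ),
      PG δ Q → 0 ≤ s →
      Cur s ε M b e η → (∀ t, HasDerivAt η (η1 t) t) → 0 ≤ b → C * (b + 1) ^ 7 * ε ≤ 1 → 0 ≤ K →
      (∀ t t', |s * P t * η t - s * P t' * η t'| ≤ K * |t - t'|) →
      (∀ a, Ext (δ * NUMF.l / 2) (A a)) →
      |(NUSea.Ev.gs s η η1 (fun a z => FO Q O' a z + A a z)).S -
        ((∑ i, (s * (∫ t, P t * lpL (cons Q O' i) (NUP1.vl NUP1.l t)) -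
          2 * Real.pi * (wK (kd (O' i)) * (s * P (ht (O' i)) * η (ht (O' i)))))) +
        (∫ t : ℝ, s * P t * (A true t + A false t).re) +
        NUCR.bil (NUSea.hd s η η1) (NUSea.hd s η η1) -
        (∫ t, Bf s (NUKer.iD η) (NUKer.iD η1) t * (A true (NUAct.zt (NUKer.iD η) t) +
          A false (NUAct.zt (NUKer.iD η) t))).re)| ≤
        C * r * (M * ε + K) + C * (b + 1) ^ 9 * M ^ 2 * ε := by
  obtain ⟨C, hC, H⟩ := NUSea.Ev.main hδ hδ1
  refine ⟨16 * C, by linarith, ?_⟩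
  intro s ε M b K e η η1 Q r O' A hQ hs hcur h1 hb hsm hK hKL hA
  have hl := NUMF.l_pos
  have hε0 := hcur.ε0
  have hM0 := hcur.M0 hs
  have hsm' : C * (b + 1) ^ 7 * ε ≤ 1 := by
    refine le_trans ?_ hsm
    have : 0 ≤ C * (b + 1) ^ 7 * ε := by positivity
    nlinarith
  have hdl : 0 < δ * NUMF.l := mul_pos hδ hl
  have hExt : ∀ a, Ext (δ * NUMF.l / 2) (fun z => FO Q O' a z + A a z) := by
    intro a
    have h1 : Ext (δ * NUMF.l / 2) (FO Q O' a) :=
      NUO.ext_FO O' (b := 3 / 4 * (δ * NUMF.l)) (by positivity) (by linarith) hQ a (by linarith)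
    obtain ⟨A1, hA1⟩ := h1.bd
    obtain ⟨A2, hA2⟩ := (hA a).bd
    refine ⟨fun z hz => (h1.diff z hz).add ((hA a).diff z hz), A1 + A2, fun z hz => ?_⟩
    rw [add_mul]
    exact (norm_add_le _ _).trans (add_le_add (hA1 z hz) (hA2 z hz))
  have h2 := H s ε M b K 1 e η η1 (fun a z => FO Q O' a z + A a z) (fun z => A true z + A false z)
    (Σ i : Fin r, Fin (offO Q O' i).length)
    (fun c => ((offO Q O' c.1)[c.2.1]).1) (fun c => ((offO Q O' c.1)[c.2.1]).2) (fun c => ht (O' c.1))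
    hs hcur h1 hb hsm' hK hKL hExt (fun c => (NUO.offO_off hQ O' c.1 _ (List.getElem_mem c.2.2)).1)
    (fun c => (NUO.offO_off hQ O' c.1 _ (List.getElem_mem c.2.2)).2) (fun z _ => by
      have e1 : FO Q O' true z + FO Q O' false z = ∑ c : (Σ i : Fin r, Fin (offO Q O' i).length),
          (fq ((offO Q O' c.1)[c.2.1]).1 (z - ((offO Q O' c.1)[c.2.1]).2) +
            fg ((offO Q O' c.1)[c.2.1]).1 (z - ((offO Q O' c.1)[c.2.1]).2)) := by
        unfold FO
        rw [← Finset.sum_add_distrib, Fintype.sum_sigma]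
        refine Finset.sum_congr rfl fun i _ => ?_
        rw [NUO.fO_sum]
        exact (Fin.sum_univ_fun_getElem (offO Q O' i)
          (fun p => fq p.1 (z - p.2) + fg p.1 (z - p.2))).symm
      rw [← e1]
      ring)
  have s1 : ∑ c : (Σ i : Fin r, Fin (offO Q O' i).length),
      O.clo ((offO Q O' c.1)[c.2.1]).1 ((offO Q O' c.1)[c.2.1]).2 =
        ∑ i, ∫ t, P t * lpL (cons Q O' i) (NUP1.vl NUP1.l t) := by
    rw [NUC43.sum_idx O' (fun p => O.clo p.1 p.2)]
    exact Finset.sum_congr rfl fun i _ => (mfo_eq hQ O' i).symm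
  have s2 : ∑ c : (Σ i : Fin r, Fin (offO Q O' i).length),
      wnu ((offO Q O' c.1)[c.2.1]).1 * (s * P (ht (O' c.1)) * η (ht (O' c.1))) =
      ∑ i, wK (kd (O' i)) * (s * P (ht (O' i)) * η (ht (O' i))) := by
    rw [Fintype.sum_sigma]
    refine Finset.sum_congr rfl fun i _ => ?_
    simp only
    rw [← Finset.sum_mul, Fin.sum_univ_fun_getElem (offO Q O' i) (fun p => wnu p.1),
      (NUC43.wnu_sum hQ O' i).1]
  have s3 : ∑ c : (Σ i : Fin r, Fin (offO Q O' i).length), (1 + |wnu ((offO Q O' c.1)[c.2.1]).1|) ≤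
      8 * r := by
    rw [NUC43.sum_idx O' (fun p => 1 + |wnu p.1|)]
    refine (Finset.sum_le_sum fun i _ => (NUC43.wnu_sum hQ O' i).2).trans (le_of_eq ?_)
    rw [Finset.sum_const, Finset.card_univ, Fintype.card_fin, nsmul_eq_mul]
    ring
  rw [s1, s2] at h2
  have hG : 0 ≤ M * ε + K * (1 + 1) := by positivity
  rw [Finset.sum_sub_distrib, ← Finset.mul_sum, ← Finset.mul_sum]
  have e3 : ∀ X a c d f g : ℝ, X - (a - c + d + f - g) = X - (a + d - c + f - g) := fun _ _ _ _ _ _ => by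
    ring
  rw [e3]
  refine h2.trans ?_
  have t1 : C * (∑ c : (Σ i : Fin r, Fin (offO Q O' i).length), (1 + |wnu ((offO Q O' c.1)[c.2.1]).1|)) *
      (M * ε + K * (1 + 1)) ≤ C * (8 * r) * (M * ε + K * (1 + 1)) := by
    gcongr
  have t2 : C * (8 * r) * (M * ε + K * (1 + 1)) ≤ 16 * C * r * (M * ε + K) := by
    have hr : (0:ℝ) ≤ r := Nat.cast_nonneg r
    have : 0 ≤ C * r * (M * ε) := by positivity
    nlinarith
  have t3 : C * (b + 1) ^ 9 * M ^ 2 * ε ≤ 16 * C * (b + 1) ^ 9 * M ^ 2 * ε := by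
    have : 0 ≤ C * (b + 1) ^ 9 * M ^ 2 * ε := by positivity
    nlinarith
  linarith

end

end NUSea.H0
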