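import Pool.Agent.NU42.Split
import Pool.Agent.NU42.NuF
import Pool.Agent.NUAct.Expo
import Pool.Agent.NUMFC.Const
import Pool.Agent.NUSea.Two
import Pool.Agent.NUSea.MFC
import Pool.Agent.NUDi.F2

/-!
# Data of the crude bound `H0` and its mean field exponent

Species `true = X`, `false = Y`.  `E` real potentials (functions of the parameter only), `F` analytic
potentials, `τ` the density of the splitting, `μ` the densities of the objects, `φ` the remainder:
`lin ∓ log g * τ + E = V * μ + φ`.
-/

set_option autoImplicit false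
set_option linter.unusedSectionVars false

open MeasureTheory Set Filter Topology
open scoped ENNReal

namespace NUSea.H0

open NUMF NUKer NUAct

noncomputable section

variable [Sea]

/-- data -/
structure Dat where
  /-- row number -/
  s : ℝ
  /-- paths -/
  ζ : Bool → ℝ → ℂ
  /-- their derivatives -/
  ζ' : Bool → ℝ → ℂ
  /-- analytic potentials -/
  F : Bool → ℂ → ℂ
  /-- real potentials -/
  E : Bool → ℝ → ℝ
  /-- density of the splitting -/
  τ : ℝ → ℝ
  /-- densities of the objects -/
  μ : Bool → ℝ → ℝ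
  /-- remainder -/
  φ : Bool → ℝ → ℝ
  /-- its derivative -/
  φ' : Bool → ℝ → ℝ

namespace Dat

variable (X : Dat)

/-- the gas of the action identity -/
def gas : Gas Bool := two X.s X.ζ X.ζ' X.F

/-- displacement -/
def D (a : Bool) (t : ℝ) : ℂ := X.ζ a t - t

/-- derivative of the displacement -/
def D1 (a : Bool) (t : ℝ) : ℂ := X.ζ' a t - 1

/-- density of the sea -/
def ρ (t : ℝ) : ℝ := X.s * P t

/-- the small kernels -/
def κ (a b : Bool) : ℝ → ℝ → ℝ := if a = b then kw (X.D a) (X.D1 a) else kg (X.D a) (X.D b)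

/-- one body exponent -/
def pot (a : Bool) (t : ℝ) : ℝ := X.s * (vc (X.ζ a t)).re + (X.F a (X.ζ a t)).re + X.E a t

/-- sign of the species -/
def sg (a : Bool) : ℝ := if a then 1 else -1

/-- `log g * τ` -/
def Gt (t : ℝ) : ℝ := ∫ u, X.τ u * Real.log (g (t - u))

/-- `V * μ` -/
def Vm (a : Bool) (t : ℝ) : ℝ := ∫ u, X.μ a u * V (t - u)

/-- exponent of the mean field (besides `MFs s p n`) -/
def En : ℝ := X.gas.S + 1 / 2 * (∫ t, X.τ t * X.Gt t) +
  ∑ a, (1 / 2 * (∫ t, X.μ a t * X.Vm a t) + (∫ t, X.ρ t * X.E a t) + ∫ t, X.μ a t * X.φ a t)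

/-- energy of the remainder -/
def Nφ : ℝ := ∑ a, ∫ t, (X.φ a t ^ 2 + X.φ' a t ^ 2)

end Dat

end

end NUSea.H0
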