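import Pool.Agent.NUSea.H0.Point
import Pool.Agent.NUH0.En
import Pool.Agent.NUWC.LemA
import Pool.Agent.NUMFC.Const

/-!
# The exponent of the mean field

`C0_eq`: `C0 + ∑_a [1/2 <ρ+μ_a, V*(ρ+μ_a)> + ∫ (ρ+μ_a) φ_a] = log g(0) (p+n)/2 + MF s + En`.
-/

set_option autoImplicit false
set_option linter.unusedSectionVars false

open MeasureTheory Set Filter Topology

namespace NUSea.H0

open NUMF NUKer NUAct NU42 NUE

noncomputable section

variable [Sea]

/-- regularity of the real data -/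
structure Reg (X : Dat) : Prop where
  μi : ∀ a, Integrable (X.μ a)
  μc : ∀ a, Continuous (X.μ a)
  μb : ∀ a, ∃ M, ∀ t, |X.μ a t| ≤ M
  φc : ∀ a, Continuous (X.φ a)
  φb : ∀ a, ∃ M, ∀ t, |X.φ a t| ≤ M
  Ec : ∀ a, Continuous (X.E a)
  Eb : ∀ a, ∃ M, ∀ t, |X.E a t| ≤ M

/-- sea plus objects -/
def rm (X : Dat) (a : Bool) (u : ℝ) : ℝ := X.ρ u + X.μ a u

variable {X : Dat} {Cκ : ℝ} {p n : ℕ}

/-! ### general facts on `V * f` -/

/-- `V * f` for bounded continuous `f` is bounded and continuous -/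
lemma conv_bc {f : ℝ → ℝ} (hf : Continuous f) {M : ℝ} (hM : ∀ t, |f t| ≤ M) :
    Continuous (fun t => ∫ u, f u * V (t - u)) ∧
      ∀ t, |∫ u, f u * V (t - u)| ≤ M * ∫ u, |V u| := by
  have e : ∀ t, ∫ u, f u * V (t - u) = ∫ u, f (t - u) * V u := by
    intro t
    rw [← integral_sub_left_eq_self (fun u => f (t - u) * V u) volume t]
    simp
  constructor
  · simp only [e]
    refine continuous_of_dominated (F := fun t u => f (t - u) * V u) (bound := fun u => M * |V u|)
      (fun t => ?_) (fun t => ae_of_all _ fun u => ?_) (V_integral.1.abs.const_mul M)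
      (ae_of_all _ fun u => ?_)
    · exact ((hf.comp (continuous_const.sub continuous_id)).aestronglyMeasurable).mul
        V_integral.1.aestronglyMeasurable
    · rw [norm_mul, Real.norm_eq_abs, Real.norm_eq_abs]
      exact mul_le_mul_of_nonneg_right (hM _) (abs_nonneg _)
    · exact (hf.comp (continuous_id.sub continuous_const)).mul continuous_const
  · intro t
    rw [e, ← integral_const_mul, ← Real.norm_eq_abs]
    refine norm_integral_le_of_norm_le (V_integral.1.abs.const_mul M) (ae_of_all _ fun u => ?_)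
    rw [norm_mul, Real.norm_eq_abs, Real.norm_eq_abs]
    exact mul_le_mul_of_nonneg_right (hM _) (abs_nonneg _)

/-- product of an integrable and a bounded continuous function -/
lemma int_mul_bc {f g : ℝ → ℝ} (hf : Integrable f) (hg : Continuous g) {M : ℝ}
    (hM : ∀ t, |g t| ≤ M) : Integrable fun t => f t * g t :=
  hf.mul_bdd (c := M) hg.aestronglyMeasurable (ae_of_all _ fun t => by
    rw [Real.norm_eq_abs]; exact hM t)

/-- symmetry of the interaction energy -/
lemma conv_symm {f g : ℝ → ℝ} (hf : Integrable f) (hg : Continuous g) {M : ℝ}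
    (hM : ∀ t, |g t| ≤ M) : ∫ t, f t * ∫ u, g u * V (t - u) = ∫ u, g u * ∫ t, f t * V (u - t) := by
  have hi : Integrable (Function.uncurry fun t u => f t * (g u * V (t - u)))
      ((volume : Measure ℝ).prod volume) := by
    have h1 : Integrable (fun q : ℝ × ℝ => f q.1 * V q.2) (volume.prod volume) :=
      hf.mul_prod V_integral.1
    have h4 : MeasurePreserving (fun q : ℝ × ℝ => (q.1, q.1 - q.2)) (volume.prod volume)
        (volume.prod volume) := by
      refine MeasurePreserving.skew_product (f := id) (g := fun x y => x - y)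
        (MeasurePreserving.id _) (by fun_prop) (ae_of_all _ fun x => ?_)
      exact (Measure.measurePreserving_sub_left volume x).map_eq
    have h5 := h4.integrable_comp_of_integrable h1
    have h6 : Integrable (fun q : ℝ × ℝ => g q.2 * (f q.1 * V (q.1 - q.2))) (volume.prod volume) := by
      refine Integrable.bdd_mul (c := M) h5 ?_ (ae_of_all _ fun q => ?_)
      · exact (hg.comp continuous_snd).aestronglyMeasurable
      · rw [Real.norm_eq_abs]; exact hM _
    refine h6.congr (ae_of_all _ fun q => ?_)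
    simp only [Function.uncurry]
    ring
  calc ∫ t, f t * ∫ u, g u * V (t - u) = ∫ t, ∫ u, f t * (g u * V (t - u)) := by
        simp only [integral_const_mul]
    _ = ∫ u, ∫ t, f t * (g u * V (t - u)) := integral_integral_swap hi
    _ = _ := by
        refine integral_congr_ae (ae_of_all _ fun u => ?_)
        simp only
        rw [← integral_const_mul]
        refine integral_congr_ae (ae_of_all _ fun t => ?_)
        simp only
        rw [show t - u = -(u - t) by ring, NUWC.V_neg]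
        ring

/-! ### the sea -/

lemma ρ_int (X : Dat) : Integrable X.ρ := P_int.const_mul _

lemma ρ_cont (X : Dat) : Continuous X.ρ := continuous_const.mul P_cont

lemma ρ_bdd (X : Dat) : ∃ M, ∀ t, |X.ρ t| ≤ M := by
  obtain ⟨C, hC0, hC⟩ := rho_bd X.s
  refine ⟨C, fun t => ?_⟩
  have h := hC t
  rw [Complex.norm_real, Real.norm_eq_abs] at h
  refine h.trans (mul_le_of_le_one_right hC0 ?_)
  rw [Real.exp_le_one_iff]
  have := abs_nonneg t
  linarith

lemma rm_cont (hR : Reg X) (a : Bool) : Continuous (rm X a) := (ρ_cont X).add (hR.μc a)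

lemma rm_int (hR : Reg X) (a : Bool) : Integrable (rm X a) := (ρ_int X).add (hR.μi a)

lemma rm_bdd (hR : Reg X) (a : Bool) : ∃ M, ∀ t, |rm X a t| ≤ M := by
  obtain ⟨M, hM⟩ := hR.μb a
  obtain ⟨M', hM'⟩ := ρ_bdd X
  exact ⟨M' + M, fun t => (abs_add_le _ _).trans (add_le_add (hM' t) (hM t))⟩

/-- the potential of sea and objects -/
lemma rm_V (hR : Reg X) (a : Bool) (t : ℝ) :
    ∫ u, rm X a u * V (t - u) = X.s * v t + X.Vm a t := by
  obtain ⟨M, hM⟩ := hR.μb a
  obtain ⟨M', hM'⟩ := ρ_bdd X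
  have i1 := NUWC.rhoV_int (ρ_cont X).aestronglyMeasurable hM' t
  have i2 := NUWC.rhoV_int (hR.μc a).aestronglyMeasurable hM t
  have e : ∀ u, rm X a u * V (t - u) = X.ρ u * V (t - u) + X.μ a u * V (t - u) := fun u => by
    unfold rm; ring
  simp_rw [e]
  rw [integral_add i1 i2]
  congr 1
  exact sea_v X.s t

/-- the one body exponent -/
lemma Xp_eq (hR : Reg X) (a : Bool) (t : ℝ) : Xp X a t = (∫ u, rm X a u * V (t - u)) + X.φ a t := by
  rw [rm_V hR]
  rfl

/-- the interaction energy of sea and objects -/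
lemma rm_energy (hR : Reg X) (a : Bool) : ∫ t, rm X a t * ∫ u, rm X a u * V (t - u) =
    MF X.s + 2 * (∫ t, X.ρ t * X.Vm a t) + ∫ t, X.μ a t * X.Vm a t := by
  obtain ⟨M, hM⟩ := hR.μb a
  obtain ⟨M', hM'⟩ := ρ_bdd X
  obtain ⟨c1, b1⟩ := conv_bc (ρ_cont X) hM'
  obtain ⟨c2, b2⟩ := conv_bc (hR.μc a) hM
  have hsv : ∀ t, ∫ u, X.ρ u * V (t - u) = X.s * v t := fun t => sea_v X.s t
  have j1 : Integrable fun t => X.ρ t * ∫ u, X.ρ u * V (t - u) := int_mul_bc (ρ_int X) c1 b1
  have j2 : Integrable fun t => X.ρ t * ∫ u, X.μ a u * V (t - u) := int_mul_bc (ρ_int X) c2 b2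
  have j3 : Integrable fun t => X.μ a t * ∫ u, X.ρ u * V (t - u) := int_mul_bc (hR.μi a) c1 b1
  have j4 : Integrable fun t => X.μ a t * ∫ u, X.μ a u * V (t - u) := int_mul_bc (hR.μi a) c2 b2
  have e : ∀ t, rm X a t * ∫ u, rm X a u * V (t - u) =
      (X.ρ t * (∫ u, X.ρ u * V (t - u)) + X.ρ t * ∫ u, X.μ a u * V (t - u)) +
      (X.μ a t * (∫ u, X.ρ u * V (t - u)) + X.μ a t * ∫ u, X.μ a u * V (t - u)) := by
    intro t
    rw [rm_V hR, hsv]
    show (X.ρ t + X.μ a t) * (X.s * v t + X.Vm a t) = X.ρ t * (X.s * v t) + X.ρ t * X.Vm a t +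
      (X.μ a t * (X.s * v t) + X.μ a t * X.Vm a t)
    ring
  simp_rw [e]
  have j12 : Integrable fun t => X.ρ t * (∫ u, X.ρ u * V (t - u)) +
      X.ρ t * ∫ u, X.μ a u * V (t - u) := j1.add j2
  have j34 : Integrable fun t => X.μ a t * (∫ u, X.ρ u * V (t - u)) +
      X.μ a t * ∫ u, X.μ a u * V (t - u) := j3.add j4
  rw [integral_add j12 j34, integral_add j1 j2, integral_add j3 j4]
  have e1 : ∫ t, X.ρ t * ∫ u, X.ρ u * V (t - u) = MF X.s := energy X.s
  have e2 := conv_symm (hR.μi a) (ρ_cont X) hM'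
  rw [e1, e2]
  have e3 : ∫ t, X.ρ t * ∫ u, X.μ a u * V (t - u) = ∫ t, X.ρ t * X.Vm a t := rfl
  have e4 : ∫ t, X.μ a t * ∫ u, X.μ a u * V (t - u) = ∫ t, X.μ a t * X.Vm a t := rfl
  rw [e3, e4]
  ring

/-- the integral of `lin` against the sea -/
lemma lin_sum (hG : Geo X Cκ) (hF : Fld X p n) (hR : Reg X) :
    ∑ a, ∫ t, X.ρ t * X.gas.lin a t =
      ∑ a, ((∫ t, X.ρ t * X.Vm a t) + (∫ t, X.ρ t * X.φ a t) - ∫ t, X.ρ t * X.E a t) := by
  have hi : ∀ a, Integrable fun t => X.ρ t * X.gas.lin a t := fun a => hG.ok.int_rho_lin a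
  have iV : ∀ a, Integrable fun t => X.ρ t * X.Vm a t := fun a => by
    obtain ⟨M, hM⟩ := hR.μb a
    obtain ⟨c2, b2⟩ := conv_bc (hR.μc a) hM
    exact int_mul_bc (ρ_int X) c2 b2
  have iφ : ∀ a, Integrable fun t => X.ρ t * X.φ a t := fun a => by
    obtain ⟨M, hM⟩ := hR.φb a
    exact int_mul_bc (ρ_int X) (hR.φc a) hM
  have iE : ∀ a, Integrable fun t => X.ρ t * X.E a t := fun a => by
    obtain ⟨M, hM⟩ := hR.Eb a
    exact int_mul_bc (ρ_int X) (hR.Ec a) hM
  have e : ∀ t, X.ρ t * X.gas.lin true t + X.ρ t * X.gas.lin false t =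
      (X.ρ t * X.Vm true t + X.ρ t * X.φ true t - X.ρ t * X.E true t) +
      (X.ρ t * X.Vm false t + X.ρ t * X.φ false t - X.ρ t * X.E false t) := by
    intro t
    have h1 := hF.eq true t
    have h2 := hF.eq false t
    unfold Dat.sg at h1 h2
    simp only [if_true, Bool.false_eq_true, if_false] at h1 h2
    linear_combination X.ρ t * h1 + X.ρ t * h2
  have i3 : ∀ a, Integrable fun t => X.ρ t * X.Vm a t + X.ρ t * X.φ a t - X.ρ t * X.E a t := fun a =>
    ((iV a).add (iφ a)).sub (iE a)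
  have e3 : ∀ a, ∫ t, (X.ρ t * X.Vm a t + X.ρ t * X.φ a t - X.ρ t * X.E a t) =
      (∫ t, X.ρ t * X.Vm a t) + (∫ t, X.ρ t * X.φ a t) - ∫ t, X.ρ t * X.E a t := by
    intro a
    rw [← integral_add (iV a) (iφ a)]
    exact integral_sub ((iV a).add (iφ a)) (iE a)
  rw [Fintype.sum_bool, Fintype.sum_bool, ← integral_add (hi true) (hi false)]
  simp_rw [e]
  rw [integral_add (i3 true) (i3 false), e3, e3]

/-- **the exponent of the mean field** -/
theorem C0_eq (hG : Geo X Cκ) (hF : Fld X p n) (hR : Reg X) :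
    C0 X p n + ∑ a, (1 / 2 * (∫ t, rm X a t * ∫ u, rm X a u * V (t - u)) + ∫ t, rm X a t * X.φ a t) =
      Real.log (g 0) * (((p : ℝ) + n) / 2) + MF X.s + X.En := by
  have e1 : ∀ a, ∫ t, rm X a t * X.φ a t = (∫ t, X.ρ t * X.φ a t) + ∫ t, X.μ a t * X.φ a t := by
    intro a
    obtain ⟨M, hM⟩ := hR.φb a
    rw [← integral_add (int_mul_bc (ρ_int X) (hR.φc a) hM) (int_mul_bc (hR.μi a) (hR.φc a) hM)]
    refine integral_congr_ae (ae_of_all _ fun t => ?_)
    simp only
    unfold rm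
    ring
  unfold C0 Dat.En
  rw [lin_sum hG hF hR]
  simp only [rm_energy hR, e1, Fintype.sum_bool]
  ring

end

end NUSea.H0
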