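import Pool.Agent.NUSea.H0.Ker
import Pool.Agent.NUH0.Point

/-!
# The pointwise bound of the positive gas by two one component gases and small kernels

`WO exp (1/2 ∑ F²) ≤ exp C0 * WX * WY * exp (1/2 ∑ nuF2 κ)`.
-/

set_option autoImplicit false
set_option linter.unusedSectionVars false

open MeasureTheory Set Filter Topology

namespace NUSea.H0

open NUMF NUKer NUAct NU42 NUE

noncomputable section

variable [Sea]

variable {X : Dat} {Cκ : ℝ} {p n : ℕ}

/-- the field equation of the data -/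
structure Fld (X : Dat) (p n : ℕ) : Prop where
  τi : Integrable X.τ
  τ1 : Integrable fun x => X.τ x * x
  τ0 : ∫ x, X.τ x = (p : ℝ) - n
  eq : ∀ a t, X.gas.lin a t - Dat.sg a * X.Gt t + X.E a t = X.Vm a t + X.φ a t

lemma lgm_abs (t : ℝ) : |lgm t| ≤ 2 * (1 + |t|) := by
  rw [abs_of_nonneg (lg_nonneg Lh_nonneg lgm_eq t)]
  exact lgm_le t

lemma tau_lgm_int {τ : ℝ → ℝ} (hτ : Integrable τ) (hτ1 : Integrable fun x => τ x * x) (x : ℝ) :
    Integrable fun y => τ y * lgm (x - y) := by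
  have h1 : Integrable fun y => (2 * (1 + |x|)) * |τ y| + 2 * |τ y * y| :=
    (hτ.abs.const_mul _).add (hτ1.abs.const_mul _)
  refine h1.mono' (hτ.aestronglyMeasurable.mul
    (lgm_meas.comp (measurable_const.sub measurable_id)).aestronglyMeasurable) (ae_of_all _ fun y => ?_)
  rw [norm_mul, Real.norm_eq_abs, Real.norm_eq_abs]
  have h2 := lgm_abs (x - y)
  have h3 := abs_sub x y
  have h4 := abs_nonneg (τ y)
  calc |τ y| * |lgm (x - y)| ≤ |τ y| * (2 * (1 + |x - y|)) := by gcongr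
    _ ≤ |τ y| * (2 * (1 + (|x| + |y|))) := by gcongr
    _ = _ := by rw [abs_mul]; ring

lemma tau_logg_int {τ : ℝ → ℝ} (hτ : Integrable τ) (hτ1 : Integrable fun x => τ x * x) (x : ℝ) :
    Integrable fun y => τ y * Real.log (g (x - y)) := by
  refine ((hτ.const_mul (Real.log (g 0))).sub (tau_lgm_int hτ hτ1 x)).congr (ae_of_all _ fun y => ?_)
  simp only [Pi.sub_apply]
  unfold lgm
  ring

lemma Fld.cv_eq (h : Fld X p n) (x : ℝ) :
    NUE.cv lgm X.τ x = Real.log (g 0) * ((p : ℝ) - n) - X.Gt x := by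
  unfold NUE.cv Dat.Gt
  rw [← h.τ0, ← integral_const_mul, ← integral_sub (h.τi.const_mul _) (tau_logg_int h.τi h.τ1 x)]
  refine integral_congr_ae (ae_of_all _ fun y => ?_)
  simp only
  unfold lgm
  ring

/-- `τ (log g * τ)` is integrable -/
lemma tau_Gt_int {τ : ℝ → ℝ} (hτ : Integrable τ) (hτ1 : Integrable fun x => τ x * x) :
    Integrable fun x => τ x * ∫ y, τ y * lgm (x - y) := by
  have hm : AEStronglyMeasurable (fun x => ∫ y, τ y * lgm (x - y)) volume := by
    have h3 : AEStronglyMeasurable (fun z : ℝ × ℝ => τ z.2 * lgm (z.1 - z.2)) (volume.prod volume) := by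
      refine hτ.aestronglyMeasurable.comp_snd.mul ?_
      exact (lgm_meas.comp (measurable_fst.sub measurable_snd)).aestronglyMeasurable
    exact h3.integral_prod_right'
  have h1 : Integrable fun x => (2 * ∫ y, (|τ y| + |τ y * y|)) * |τ x| + (2 * ∫ y, |τ y|) * |τ x * x| :=
    (hτ.abs.const_mul _).add (hτ1.abs.const_mul _)
  refine h1.mono' (hτ.aestronglyMeasurable.mul hm) (ae_of_all _ fun x => ?_)
  rw [norm_mul, Real.norm_eq_abs]
  have i1 : Integrable fun y => |τ y| + |τ y * y| := hτ.abs.add hτ1.abs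
  have h2 : ‖∫ y, τ y * lgm (x - y)‖ ≤ 2 * (∫ y, (|τ y| + |τ y * y|)) + (2 * |x|) * ∫ y, |τ y| := by
    rw [← integral_const_mul, ← integral_const_mul,
      ← integral_add (i1.const_mul _) (hτ.abs.const_mul _)]
    refine norm_integral_le_of_norm_le ((i1.const_mul _).add (hτ.abs.const_mul _)) (ae_of_all _ fun y => ?_)
    rw [norm_mul, Real.norm_eq_abs, Real.norm_eq_abs]
    have h2 := lgm_abs (x - y)
    have h3 := abs_sub x y
    have h4 := abs_nonneg (τ y)
    calc |τ y| * |lgm (x - y)| ≤ |τ y| * (2 * (1 + |x - y|)) := by gcongr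
      _ ≤ |τ y| * (2 * (1 + (|x| + |y|))) := by gcongr
      _ = _ := by rw [abs_mul]; ring
  calc |τ x| * ‖∫ y, τ y * lgm (x - y)‖ ≤
      |τ x| * (2 * (∫ y, (|τ y| + |τ y * y|)) + (2 * |x|) * ∫ y, |τ y|) := by gcongr
    _ = _ := by rw [abs_mul]; ring

lemma Fld.int_cv (h : Fld X p n) : ∫ x, X.τ x * NUE.cv lgm X.τ x =
    Real.log (g 0) * ((p : ℝ) - n) ^ 2 - ∫ x, X.τ x * X.Gt x := by
  have i1 := tau_Gt_int h.τi h.τ1
  have e1 : ∀ x, X.τ x * X.Gt x = X.τ x * (Real.log (g 0) * ((p : ℝ) - n)) -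
      X.τ x * ∫ y, X.τ y * lgm (x - y) := by
    intro x
    have := h.cv_eq x
    unfold NUE.cv at this
    rw [this]
    ring
  have e2 : ∫ x, X.τ x * X.Gt x = Real.log (g 0) * ((p : ℝ) - n) ^ 2 -
      ∫ x, X.τ x * ∫ y, X.τ y * lgm (x - y) := by
    simp_rw [e1]
    rw [integral_sub (h.τi.mul_const _) i1, integral_mul_const, h.τ0]
    ring
  rw [e2]
  unfold NUE.cv
  ring

/-- one body exponent of the one component gas -/
def Xp (X : Dat) (a : Bool) (t : ℝ) : ℝ := X.s * v t + X.Vm a t + X.φ a t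

/-- the one component weight -/
def W1 (X : Dat) (a : Bool) {N : ℕ} (t : Fin N → ℝ) : ℝ := pom t * ∏ i, Real.exp (Xp X a (t i))

/-- the constant -/
def C0 (X : Dat) (p n : ℕ) : ℝ := Real.log (g 0) * (((p : ℝ) + n) / 2) + X.gas.S +
  1 / 2 * (∫ x, X.τ x * X.Gt x) - ∑ a, ∫ t, X.ρ t * X.gas.lin a t

/-- the form of all species -/
def NF (X : Dat) (t : Fin p → ℝ) (t' : Fin n → ℝ) : ℝ :=
  nuF2 X.ρ X.ρ t t (X.κ true true) + nuF2 X.ρ X.ρ t t' (X.κ true false) +
        (nuF2 X.ρ X.ρ t' t (X.κ false true) + nuF2 X.ρ X.ρ t' t' (X.κ false false))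

/-- **the exponent identity in the final form** -/
theorem expo_eq (hG : Geo X Cκ) (hF : Fld X p n) (t : Fin p → ℝ) (t' : Fin n → ℝ) :
    Ctau p n X.τ + (∑ i, (X.pot true (t i) + NUE.cv lgm X.τ (t i))) +
      (∑ j, (X.pot false (t' j) - NUE.cv lgm X.τ (t' j))) +
      KE (X.D true) (X.D1 true) (X.D false) (X.D1 false) t t' =
    C0 X p n + (∑ i, Xp X true (t i)) + (∑ j, Xp X false (t' j)) + 1 / 2 * NF X t t' := by
  have h1 := hG.ok.expo (sig p n) (pts t t') X.κ
  rw [hG.nu2_eq] at h1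
  rw [hG.ke_eq]
  unfold Gas.nu at h1
  have e1 : ∀ a t, X.pot a t = X.s * v t + X.gas.G a t + X.E a t := by
    intro a t
    have : X.gas.G a t = ((X.s : ℂ) * vc (X.ζ a t)).re - X.s * v t + (X.F a (X.ζ a t)).re := rfl
    rw [this, Complex.re_ofReal_mul]
    unfold Dat.pot
    ring
  have s1 : ∑ i, X.gas.G (sig p n i) (pts t t' i) = ∑ i, X.gas.G true (t i) + ∑ j, X.gas.G false (t' j) := by
    unfold sig pts
    simp only [Fintype.sum_sum_type, Sum.elim_inl, Sum.elim_inr]
  have s2 : ∑ i, X.gas.lin (sig p n i) (pts t t' i) =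
      ∑ i, X.gas.lin true (t i) + ∑ j, X.gas.lin false (t' j) := by
    unfold sig pts
    simp only [Fintype.sum_sum_type, Sum.elim_inl, Sum.elim_inr]
  rw [s1, s2] at h1
  have e3 : ∀ t, X.gas.lin true t = X.Gt t - X.E true t + X.Vm true t + X.φ true t := by
    intro t
    have := hF.eq true t
    unfold Dat.sg at this
    simp only [if_true] at this
    linarith
  have e4 : ∀ t, X.gas.lin false t = - X.Gt t - X.E false t + X.Vm false t + X.φ false t := by
    intro t
    have := hF.eq false t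
    unfold Dat.sg at this
    simp only [Bool.false_eq_true, if_false] at this
    linarith
  have t1 : ∑ i, (X.pot true (t i) + NUE.cv lgm X.τ (t i)) = ∑ i, X.gas.G true (t i) +
      ∑ i, (Xp X true (t i) - X.gas.lin true (t i) + Real.log (g 0) * ((p : ℝ) - n)) := by
    rw [← Finset.sum_add_distrib]
    refine Finset.sum_congr rfl fun i _ => ?_
    rw [e1, hF.cv_eq, e3]
    unfold Xp
    ring
  have t2 : ∑ j, (X.pot false (t' j) - NUE.cv lgm X.τ (t' j)) = ∑ j, X.gas.G false (t' j) +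
      ∑ j, (Xp X false (t' j) - X.gas.lin false (t' j) - Real.log (g 0) * ((p : ℝ) - n)) := by
    rw [← Finset.sum_add_distrib]
    refine Finset.sum_congr rfl fun i _ => ?_
    rw [e1, hF.cv_eq, e4]
    unfold Xp
    ring
  rw [t1, t2]
  simp only [Finset.sum_add_distrib, Finset.sum_sub_distrib, Finset.sum_const, Finset.card_univ,
    Fintype.card_fin, nsmul_eq_mul]
  unfold Ctau C0
  rw [hF.int_cv]
  have e5 : ∀ a, ∫ t, X.gas.ρ a t * X.gas.lin a t = ∫ t, X.ρ t * X.gas.lin a t := fun _ => rfl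
  simp only [e5] at h1
  unfold NF
  linear_combination h1

/-- **pointwise bound** -/
theorem point (hG : Geo X Cκ) (hF : Fld X p n) {c : ℝ → ℝ} (hc : Continuous c)
    (hce : ∀ k, c (-k) = c k) {K h : ℝ} (hh : 0 < h)
    (hK : K * h < Real.pi) (hcs : ∀ k, K < |k| → c k = 0) (hL : ∀ k, 0 < k → c k ^ 2 ≤ NUMF.Lh k)
    (La : Finset ℤ) (a0 : ℝ) (t : Fin p → ℝ) (t' : Fin n → ℝ) :
    WO (X.D true) (X.D1 true) (X.D false) (X.D1 false) (fun t => Real.exp (X.pot true t))
      (fun t => Real.exp (X.pot false t)) t t' *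
        Real.exp (1 / 2 * ∑ l ∈ La, Fst c h a0 X.τ l t t' ^ 2) ≤
      Real.exp (C0 X p n) * (W1 X true t * W1 X false t') * Real.exp (1 / 2 * NF X t t') := by
  have h1 := WO_tau hc hce hh hK hcs hL La a0 hF.τi hF.τ1 hF.τ0 hG.small
    (a := fun t => Real.exp (X.pot true t)) (a' := fun t => Real.exp (X.pot false t))
    (fun t => (Real.exp_pos _).le) (fun t => (Real.exp_pos _).le) t t'
  refine h1.trans (le_of_eq ?_)
  have h2 := congrArg Real.exp (expo_eq hG hF t t')
  simp only [Real.exp_add, Real.exp_sum, sub_eq_add_neg] at h2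
  unfold W1
  calc _ = pom t * pom t' * (Real.exp (Ctau p n X.τ) *
        (∏ i, (Real.exp (X.pot true (t i)) * Real.exp (NUE.cv lgm X.τ (t i)))) *
        (∏ j, (Real.exp (X.pot false (t' j)) * Real.exp (-NUE.cv lgm X.τ (t' j)))) *
        Real.exp (KE (X.D true) (X.D1 true) (X.D false) (X.D1 false) t t')) := by ring
    _ = pom t * pom t' * (Real.exp (C0 X p n) * (∏ i, Real.exp (Xp X true (t i))) *
        (∏ j, Real.exp (Xp X false (t' j))) * Real.exp (1 / 2 * NF X t t')) := by rw [h2]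
    _ = _ := by ring

end

end NUSea.H0
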