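import Pool.Agent.NUH0.Win
import Pool.Agent.NUSea.N42Act

/-!
# The positive gas on a window (general sea)

`win_H0`: the integral of `WO exp (1/2 ∑ F_l²)` over the window `[-T, T]^(p+n)` is at most
`exp (Ctau + CS + small) * BX * BY`, with the one component constants of `oneF`.
-/

set_option autoImplicit false
set_option linter.unusedSectionVars false

open MeasureTheory Set Filter Topology
open scoped Real ENNReal

namespace NUSea.H0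

open NUMF (l l_pos w g V)
open NUWC NUC37 NUKer NUDi NUH0

noncomputable section

variable [Sea]

/-- **Pointwise**: the weight on the window, by the one component weights and the cut form. -/
theorem win_pt {p n : ℕ} {b c B C s : ℝ} {DX DX1 DY DY1 : ℝ → ℂ} {Fe : Bool → ℂ → ℂ}
    {ch : ℝ → ℝ} (hc : Continuous ch) (hce : ∀ k, ch (-k) = ch k) {K h : ℝ} (hh : 0 < h)
    (hK : K * h < Real.pi) (hcs : ∀ k, K < |k| → ch k = 0) (hL : ∀ k, 0 < k → ch k ^ 2 ≤ NUMF.Lh k)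
    (La : Finset ℤ) (a0 : ℝ) {τ : ℝ → ℝ} (hτ : Integrable τ) (hτ1 : Integrable fun x => τ x * x)
    (h0 : ∫ x, τ x = (p : ℝ) - n)
    (hs : NU42.Small DX DX1 DY DY1) (hb : b ≤ l / 7)
    (P' : ∀ a, NUAct.Path b c B (NU42.zz DX DY a) (NU42.zz1 DX1 DY1 a)) (hs0 : 0 ≤ s)
    (hF : ∀ a, NUAct.Ext b (Fe a)) (hk : ∀ a d, NU42.Bk C (NU42.kd DX DX1 DY DY1 a d))
    {a a' βX βY : ℝ → ℝ} (ha : ∀ t, 0 ≤ a t) (ha' : ∀ t, 0 ≤ a' t)
    (hla : ∀ t, a t ≤ Real.exp (s * v t + (N42.XX s DX DX1 DY DY1 Fe).G true t + βX t))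
    (hla' : ∀ t, a' t ≤ Real.exp (s * v t + (N42.XX s DX DX1 DY DY1 Fe).G false t + βY t))
    {R : ℝ} {bb : ℝ → ℝ} (hbb : Cutf R bb) {ε : ℝ}
    (he : ∀ a d t t', |NU42.kd DX DX1 DY DY1 a d t t' - bb t * bb t' * NU42.kd DX DX1 DY DY1 a d t t'| ≤ ε)
    {T : ℝ} (ρX ρY : ℝ → ℝ) (cX cY : ℝ) (ω : (Fin p → ℝ) × (Fin n → ℝ)) :
    (NUH0.bx T p n).indicator (fun ω => ENNReal.ofReal (NU42.WO DX DX1 DY DY1 a a' ω.1 ω.2 *
        Real.exp (1 / 2 * ∑ l ∈ La, NU42.Fst ch h a0 τ l ω.1 ω.2 ^ 2))) ω ≤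
      ENNReal.ofReal (Real.exp (NU42.Ctau p n τ + N42.CS s DX DX1 DY DY1 Fe + p * cX + n * cY +
        ε / 2 * ((p : ℝ) + n + 2 * ∫ x, s * P x) ^ 2)) *
      (WT T p ρX (fun x => N42.phi s DX DX1 DY DY1 Fe βX τ true x - cX - ∫ u, ρX u * V (x - u)) ω.1 *
       WT T n ρY (fun x => N42.phi s DX DX1 DY DY1 Fe βY τ false x - cY - ∫ u, ρY u * V (x - u)) ω.2 *
        ENNReal.ofReal (Real.exp (QFF bb (fun _ : Bool => fun t => s * P t)
        (kq (NU42.kd DX DX1 DY DY1)) (spF p n) ω))) := by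
  have hdens := N42.dens_P (s := s) hs0
  set φX := N42.phi s DX DX1 DY DY1 Fe βX τ true with hφXd
  set φY := N42.phi s DX DX1 DY DY1 Fe βY τ false with hφYd
  by_cases hω : ω ∈ NUH0.bx T p n
  · rw [indicator_of_mem hω]
    have h2 := N42.WO_act hc hce hh hK hcs hL La a0 hτ hτ1 h0 hs hb P' hs0 hF hk ha ha' hla hla'
      ω.1 ω.2
    have h3 := NU42.QF_cut hdens hk hbb.cont hbb.le he ω.1 ω.2
    rw [QF_eq] at h3
    have w1 := NU42.W1_nonneg φX ω.1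
    have w2 := NU42.W1_nonneg φY ω.2
    set q0 := QFF bb (fun _ : Bool => fun t => s * P t) (kq (NU42.kd DX DX1 DY DY1)) (spF p n) ω
      with hq0
    have e1 := W1_le (T := T) (c := cX) (φ := φX) (ρ := ρX) ω.1 hω.1
    have e2 := W1_le (T := T) (c := cY) (φ := φY) (ρ := ρY) ω.2 hω.2
    set c0 := NU42.Ctau p n τ + N42.CS s DX DX1 DY DY1 Fe + p * cX + n * cY +
        ε / 2 * ((p : ℝ) + n + 2 * ∫ x, s * P x) ^ 2 with hc0
    have e3 : ENNReal.ofReal (Real.exp c0) *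
        (WT T p ρX (fun x => φX x - cX - ∫ u, ρX u * V (x - u)) ω.1 *
        WT T n ρY (fun x => φY x - cY - ∫ u, ρY u * V (x - u)) ω.2 *
        ENNReal.ofReal (Real.exp q0)) =
        ENNReal.ofReal (Real.exp (NU42.Ctau p n τ + N42.CS s DX DX1 DY DY1 Fe +
          ε / 2 * ((p : ℝ) + n + 2 * ∫ x, s * P x) ^ 2)) *
        (ENNReal.ofReal (NU42.W1 φX ω.1) * ENNReal.ofReal (NU42.W1 φY ω.2) *
        ENNReal.ofReal (Real.exp q0)) := by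
      rw [e1, e2, hc0, show NU42.Ctau p n τ + N42.CS s DX DX1 DY DY1 Fe + p * cX + n * cY +
        ε / 2 * ((p : ℝ) + n + 2 * ∫ x, s * P x) ^ 2 =
        (NU42.Ctau p n τ + N42.CS s DX DX1 DY DY1 Fe +
          ε / 2 * ((p : ℝ) + n + 2 * ∫ x, s * P x) ^ 2) + p * cX + n * cY by ring,
        Real.exp_add, Real.exp_add, ENNReal.ofReal_mul (by positivity),
        ENNReal.ofReal_mul (by positivity)]
      ring
    rw [e3, ← ENNReal.ofReal_mul w1, ← ENNReal.ofReal_mul (by positivity),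
      ← ENNReal.ofReal_mul (Real.exp_pos _).le]
    refine ENNReal.ofReal_le_ofReal (h2.trans ?_)
    have h4 : Real.exp (NU42.QF (fun u => s * P u) (NU42.kd DX DX1 DY DY1) ω.1 ω.2) ≤
        Real.exp q0 * Real.exp (ε / 2 * ((p : ℝ) + n + 2 * ∫ x, s * P x) ^ 2) := by
      rw [← Real.exp_add]
      exact Real.exp_le_exp.2 h3
    calc Real.exp (NU42.Ctau p n τ + N42.CS s DX DX1 DY DY1 Fe) * NU42.W1 φX ω.1 *
          NU42.W1 φY ω.2 * Real.exp (NU42.QF (fun u => s * P u) (NU42.kd DX DX1 DY DY1) ω.1 ω.2) ≤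
        Real.exp (NU42.Ctau p n τ + N42.CS s DX DX1 DY DY1 Fe) * NU42.W1 φX ω.1 *
          NU42.W1 φY ω.2 * (Real.exp q0 *
          Real.exp (ε / 2 * ((p : ℝ) + n + 2 * ∫ x, s * P x) ^ 2)) := by gcongr
      _ = _ := by
        rw [Real.exp_add (NU42.Ctau p n τ + N42.CS s DX DX1 DY DY1 Fe)]
        ring
  · rw [indicator_of_notMem hω]
    exact bot_le

/-- **The positive gas on a window** ([4.2] + [4.4] + [4.5]). -/
theorem win_H0 {p n : ℕ} {b c B C s : ℝ} {DX DX1 DY DY1 : ℝ → ℂ} {Fe : Bool → ℂ → ℂ}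
    {ch : ℝ → ℝ} (hc : Continuous ch) (hce : ∀ k, ch (-k) = ch k) {K h : ℝ} (hh : 0 < h)
    (hK : K * h < Real.pi) (hcs : ∀ k, K < |k| → ch k = 0) (hL : ∀ k, 0 < k → ch k ^ 2 ≤ NUMF.Lh k)
    (La : Finset ℤ) (a0 : ℝ) {τ : ℝ → ℝ} (hτ : Integrable τ) (hτ1 : Integrable fun x => τ x * x)
    (h0 : ∫ x, τ x = (p : ℝ) - n)
    (hs : NU42.Small DX DX1 DY DY1) (hb : b ≤ l / 7)
    (P' : ∀ a, NUAct.Path b c B (NU42.zz DX DY a) (NU42.zz1 DX1 DY1 a)) (hs0 : 0 ≤ s)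
    (hF : ∀ a, NUAct.Ext b (Fe a)) (hk : ∀ a d, NU42.Bk C (NU42.kd DX DX1 DY DY1 a d))
    {a a' βX βY : ℝ → ℝ} (ha : ∀ t, 0 ≤ a t) (ha' : ∀ t, 0 ≤ a' t)
    (hla : ∀ t, a t ≤ Real.exp (s * v t + (N42.XX s DX DX1 DY DY1 Fe).G true t + βX t))
    (hla' : ∀ t, a' t ≤ Real.exp (s * v t + (N42.XX s DX DX1 DY DY1 Fe).G false t + βY t))
    -- cut kernels
    {R : ℝ} {bb bb' : ℝ → ℝ} (hbb : Cutf R bb) (hR : 1 ≤ R) (hbd : ∀ x, HasDerivAt bb (bb' x) x)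
    (hbc : Continuous bb') (hb1 : ∀ x, |bb' x| ≤ 1) {ε : ℝ}
    (he : ∀ a d t t', |NU42.kd DX DX1 DY DY1 a d t t' - bb t * bb t' * NU42.kd DX DX1 DY DY1 a d t t'| ≤ ε)
    {Λ0 Λ1 : ℝ} (hKC : ∀ a d, KC R Λ1 (fun t t' => ((NU42.kd DX DX1 DY DY1 a d t t' : ℝ) : ℂ)))
    (hΛ0 : 0 < Λ0) (hΛ1 : 2 * Λ1 ≤ Λ0) (hq : 8 * Λ0 * (22 * R) ≤ 1)
    -- the window and the two species
    {G T L δ M m2 δ2 : ℝ} (hG : 9 ≤ G) (hT : 0 < T) (hLL : L = 2 * T + 2 * G)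
    {ρX ρY EX EX' EY EY' : ℝ → ℝ} {cX cY : ℝ}
    (hX : Spec R T L δ M m2 δ2 (fun t => s * P t) ρX EX EX')
    (hY : Spec R T L δ M m2 δ2 (fun t => s * P t) ρY EY EY')
    (hmX : Measurable (N42.phi s DX DX1 DY DY1 Fe βX τ true))
    (hmY : Measurable (N42.phi s DX DX1 DY DY1 Fe βY τ false))
    (hφX : ∀ x, |x| ≤ T → N42.phi s DX DX1 DY DY1 Fe βX τ true x ≤ (∫ u, ρX u * V (x - u)) + EX x + cX)
    (hφY : ∀ x, |x| ≤ T → N42.phi s DX DX1 DY DY1 Fe βY τ false x ≤ (∫ u, ρY u * V (x - u)) + EY x + cY) :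
    ∫⁻ ω in NUH0.bx T p n, ENNReal.ofReal (NU42.WO DX DX1 DY DY1 a a' ω.1 ω.2 *
        Real.exp (1 / 2 * ∑ l ∈ La, NU42.Fst ch h a0 τ l ω.1 ω.2 ^ 2)) ≤
      ENNReal.ofReal (Real.exp (NU42.Ctau p n τ + N42.CS s DX DX1 DY DY1 Fe + p * cX + n * cY +
        ε / 2 * ((p : ℝ) + n + 2 * ∫ x, s * P x) ^ 2)) *
      (ENNReal.ofReal (BT G L δ p ρX EX) * ENNReal.ofReal (BT G L δ n ρY EY) *
      ENNReal.ofReal (√2 * Real.exp (4 * Λ0 * (22 * R) *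
        ((m2 + δ2) ^ 2 + 4 * (Qt G L EX + Qt G L EY))))) := by
  have hL0 : 0 < L := by rw [hLL]; linarith
  have hdens := N42.dens_P (s := s) hs0
  have hQX := Qt_nonneg hG hL0 hX.c1
  have hQY := Qt_nonneg hG hL0 hY.c1
  set M' := (m2 + δ2) ^ 2 + 4 * (Qt G L EX + Qt G L EY) with hM'
  have hM'0 : 0 ≤ M' := by positivity
  have oX := win_one (m := p) hG hT hLL hdens.int hX hbb hR hbd hbc hb1 hφX (M' := M')
    (by rw [hM']; linarith)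
  have oY := win_one (m := n) hG hT hLL hdens.int hY hbb hR hbd hbc hb1 hφY (M' := M')
    (by rw [hM']; linarith)
  have mX := WT_meas' (T := T) (c := cX) hX.cont hmX p
  have mY := WT_meas' (T := T) (c := cY) hY.cont hmY n
  have h1 := crudeF2 hbb (ρ := fun _ : Bool => fun t => s * P t)
    (fun _ => hdens.cont) mX mY (kq_KC hKC) hΛ0 (by rw [kΛ_sum]; exact hΛ1) (by linarith) hM'0 hq
    oX oY (fun _ => le_rfl)
  rw [← lintegral_indicator (bx_meas T p n)]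
  refine (lintegral_mono fun ω => win_pt hc hce hh hK hcs hL La a0 hτ hτ1 h0 hs hb P' hs0 hF hk ha
    ha' hla hla' hbb he (T := T) ρX ρY cX cY ω).trans ?_
  rw [lintegral_const_mul' _ _ ENNReal.ofReal_ne_top]
  exact mul_le_mul_right h1 _

/-- **The same with one more square** (either species, every mode). -/
theorem win_sq {p n : ℕ} {b c B C s : ℝ} {DX DX1 DY DY1 : ℝ → ℂ} {Fe : Bool → ℂ → ℂ}
    {ch : ℝ → ℝ} (hc : Continuous ch) (hce : ∀ k, ch (-k) = ch k) {K h : ℝ} (hh : 0 < h)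
    (hK : K * h < Real.pi) (hcs : ∀ k, K < |k| → ch k = 0) (hL : ∀ k, 0 < k → ch k ^ 2 ≤ NUMF.Lh k)
    (La : Finset ℤ) (a0 : ℝ) {τ : ℝ → ℝ} (hτ : Integrable τ) (hτ1 : Integrable fun x => τ x * x)
    (h0 : ∫ x, τ x = (p : ℝ) - n)
    (hs : NU42.Small DX DX1 DY DY1) (hb : b ≤ l / 7)
    (P' : ∀ a, NUAct.Path b c B (NU42.zz DX DY a) (NU42.zz1 DX1 DY1 a)) (hs0 : 0 ≤ s)
    (hF : ∀ a, NUAct.Ext b (Fe a)) (hk : ∀ a d, NU42.Bk C (NU42.kd DX DX1 DY DY1 a d))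
    {a a' βX βY : ℝ → ℝ} (ha : ∀ t, 0 ≤ a t) (ha' : ∀ t, 0 ≤ a' t)
    (hla : ∀ t, a t ≤ Real.exp (s * v t + (N42.XX s DX DX1 DY DY1 Fe).G true t + βX t))
    (hla' : ∀ t, a' t ≤ Real.exp (s * v t + (N42.XX s DX DX1 DY DY1 Fe).G false t + βY t))
    -- cut kernels
    {R : ℝ} {bb bb' : ℝ → ℝ} (hbb : Cutf R bb) (hR : 1 ≤ R) (hbd : ∀ x, HasDerivAt bb (bb' x) x)
    (hbc : Continuous bb') (hb1 : ∀ x, |bb' x| ≤ 1) {ε : ℝ}
    (he : ∀ a d t t', |NU42.kd DX DX1 DY DY1 a d t t' - bb t * bb t' * NU42.kd DX DX1 DY DY1 a d t t'| ≤ ε)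
    {Λ0 Λ1 : ℝ} (hKC : ∀ a d, KC R Λ1 (fun t t' => ((NU42.kd DX DX1 DY DY1 a d t t' : ℝ) : ℂ)))
    (hΛ0 : 0 < Λ0) (hΛ1 : 2 * Λ1 ≤ Λ0)
    {c' : ℝ} (hc' : 2 * Λ0 ≤ c') (hq : 8 * c' * (22 * R) ≤ 1)
    -- the window and the two species
    {G T L δ M m2 δ2 : ℝ} (hG : 9 ≤ G) (hT : 0 < T) (hLL : L = 2 * T + 2 * G)
    {ρX ρY EX EX' EY EY' : ℝ → ℝ} {cX cY : ℝ}
    (hX : Spec R T L δ M m2 δ2 (fun t => s * P t) ρX EX EX')
    (hY : Spec R T L δ M m2 δ2 (fun t => s * P t) ρY EY EY')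
    (hmX : Measurable (N42.phi s DX DX1 DY DY1 Fe βX τ true))
    (hmY : Measurable (N42.phi s DX DX1 DY DY1 Fe βY τ false))
    (hφX : ∀ x, |x| ≤ T → N42.phi s DX DX1 DY DY1 Fe βX τ true x ≤ (∫ u, ρX u * V (x - u)) + EX x + cX)
    (hφY : ∀ x, |x| ≤ T → N42.phi s DX DX1 DY DY1 Fe βY τ false x ≤ (∫ u, ρY u * V (x - u)) + EY x + cY)
    (k : Bool) (al : ℝ) :
    ∫⁻ ω in NUH0.bx T p n, ENNReal.ofReal (NU42.WO DX DX1 DY DY1 a a' ω.1 ω.2 *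
        Real.exp (1 / 2 * ∑ l ∈ La, NU42.Fst ch h a0 τ l ω.1 ω.2 ^ 2)) *
        ENNReal.ofReal (Real.exp (c' / (1 + |al|) *
          (nuF (fun t => s * P t) (spF p n k ω) fun t => bb t * Real.cos (al * t)) ^ 2)) ≤
      ENNReal.ofReal (Real.exp (NU42.Ctau p n τ + N42.CS s DX DX1 DY DY1 Fe + p * cX + n * cY +
        ε / 2 * ((p : ℝ) + n + 2 * ∫ x, s * P x) ^ 2)) *
      (ENNReal.ofReal (BT G L δ p ρX EX) * ENNReal.ofReal (BT G L δ n ρY EY) *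
      ENNReal.ofReal (√2 * Real.exp (4 * c' * (22 * R) *
        ((m2 + δ2) ^ 2 + 4 * (Qt G L EX + Qt G L EY))))) ∧
    ∫⁻ ω in NUH0.bx T p n, ENNReal.ofReal (NU42.WO DX DX1 DY DY1 a a' ω.1 ω.2 *
        Real.exp (1 / 2 * ∑ l ∈ La, NU42.Fst ch h a0 τ l ω.1 ω.2 ^ 2)) *
        ENNReal.ofReal (Real.exp (c' / (1 + |al|) *
          (nuF (fun t => s * P t) (spF p n k ω) fun t => bb t * Real.sin (al * t)) ^ 2)) ≤
      ENNReal.ofReal (Real.exp (NU42.Ctau p n τ + N42.CS s DX DX1 DY DY1 Fe + p * cX + n * cY +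
        ε / 2 * ((p : ℝ) + n + 2 * ∫ x, s * P x) ^ 2)) *
      (ENNReal.ofReal (BT G L δ p ρX EX) * ENNReal.ofReal (BT G L δ n ρY EY) *
      ENNReal.ofReal (√2 * Real.exp (4 * c' * (22 * R) *
        ((m2 + δ2) ^ 2 + 4 * (Qt G L EX + Qt G L EY))))) := by
  have hL0 : 0 < L := by rw [hLL]; linarith
  have hdens := N42.dens_P (s := s) hs0
  have hQX := Qt_nonneg hG hL0 hX.c1
  have hQY := Qt_nonneg hG hL0 hY.c1
  set M' := (m2 + δ2) ^ 2 + 4 * (Qt G L EX + Qt G L EY) with hM'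
  have hM'0 : 0 ≤ M' := by positivity
  have oX := win_one (m := p) hG hT hLL hdens.int hX hbb hR hbd hbc hb1 hφX (M' := M')
    (by rw [hM']; linarith)
  have oY := win_one (m := n) hG hT hLL hdens.int hY hbb hR hbd hbc hb1 hφY (M' := M')
    (by rw [hM']; linarith)
  have mX := WT_meas' (T := T) (c := cX) hX.cont hmX p
  have mY := WT_meas' (T := T) (c := cY) hY.cont hmY n
  have h1 := crudeF_sq (μ := (volume : Measure ((Fin p → ℝ) × (Fin n → ℝ)))) (s := spF p n)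
    (ρ := fun _ : Bool => fun t => s * P t) hbb ((mX.comp measurable_fst).mul (mY.comp measurable_snd))
    measurable_spF (fun _ => hdens.cont) (kq_KC hKC) hΛ0 (by rw [kΛ_sum]; exact hΛ1) (by linarith)
    hM'0 hc' hq (two_expF (ρ := fun _ : Bool => fun t => s * P t) hbb.cont mX mY oX oY) k al
  have go : ∀ N : (Fin p → ℝ) × (Fin n → ℝ) → ℝ, ∀ D : ℝ≥0∞,
      ∫⁻ ω : (Fin p → ℝ) × (Fin n → ℝ),
        (WT T p ρX (fun x => N42.phi s DX DX1 DY DY1 Fe βX τ true x - cX - ∫ u, ρX u * V (x - u)) ω.1 *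
         WT T n ρY (fun x => N42.phi s DX DX1 DY DY1 Fe βY τ false x - cY - ∫ u, ρY u * V (x - u)) ω.2) *
        ENNReal.ofReal (Real.exp (QFF bb (fun _ : Bool => fun t => s * P t)
          (kq (NU42.kd DX DX1 DY DY1)) (spF p n) ω + N ω)) ≤ D →
      ∫⁻ ω in NUH0.bx T p n, ENNReal.ofReal (NU42.WO DX DX1 DY DY1 a a' ω.1 ω.2 *
        Real.exp (1 / 2 * ∑ l ∈ La, NU42.Fst ch h a0 τ l ω.1 ω.2 ^ 2)) *
        ENNReal.ofReal (Real.exp (N ω)) ≤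
      ENNReal.ofReal (Real.exp (NU42.Ctau p n τ + N42.CS s DX DX1 DY DY1 Fe + p * cX + n * cY +
        ε / 2 * ((p : ℝ) + n + 2 * ∫ x, s * P x) ^ 2)) * D := by
    intro N D hD
    rw [← lintegral_indicator (bx_meas T p n)]
    refine le_trans (lintegral_mono fun ω => ?_) (le_trans (le_of_eq
      (lintegral_const_mul' _ _ ENNReal.ofReal_ne_top)) (mul_le_mul_right hD _))
    have h2 := win_pt hc hce hh hK hcs hL La a0 hτ hτ1 h0 hs hb P' hs0 hF hk ha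
      ha' hla hla' hbb he (T := T) ρX ρY cX cY ω
    have e : ENNReal.ofReal (Real.exp (QFF bb (fun _ : Bool => fun t => s * P t)
          (kq (NU42.kd DX DX1 DY DY1)) (spF p n) ω + N ω)) = ENNReal.ofReal (Real.exp
          (QFF bb (fun _ : Bool => fun t => s * P t) (kq (NU42.kd DX DX1 DY DY1)) (spF p n) ω)) *
          ENNReal.ofReal (Real.exp (N ω)) := by
      rw [Real.exp_add, ENNReal.ofReal_mul (Real.exp_pos _).le]
    rw [e, ← mul_assoc (_ * _), ← mul_assoc]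
    by_cases hω : ω ∈ NUH0.bx T p n
    · rw [indicator_of_mem hω] at h2 ⊢
      exact mul_le_mul_left h2 _
    · rw [indicator_of_notMem hω]
      exact bot_le
  exact ⟨go _ _ h1.1, go _ _ h1.2⟩

end

end NUSea.H0
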